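import Pool.Agent.H24.AP.Game

/-!
# Alternating paths: almost all colourings

`total`: the generating function of the number of missing points; `card_bal`: the number of balanced colourings;
`almost_all`.
-/

set_option autoImplicit false

namespace Pool.Agent.H24.AP

open Finset

theorem total {N : ℕ} {p : Fin N → ℝ × ℝ} (hp : GenPos p) (hinj : Function.Injective p)
    (hN : 3 ≤ N) (t h s : ℝ) (ht : 1 ≤ t) (hh : 1 ≤ h)
    (hs0 : 0 ≤ s) (hs1 : 2 + h ≤ 3 * s) (hs2 : 2 + t * h ≤ 3 * s * h) :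
    ∃ d : (Fin N → Fin 3) → ℕ,
      (∀ c, ∃ (m : ℕ) (v : ℕ → Fin N), SimplePath p m v ∧
        (∀ i, i + 1 < m → c (v i) ≠ c (v (i + 1))) ∧ N ≤ m + d c) ∧
      ∑ c, t ^ (d c) ≤ 27 * (t ^ 2 * (t * h) * (3 * s) ^ (N - 3)) := by
  obtain ⟨v, a, b, hva, hvb, hab, hE⟩ := start hp hinj hN
  obtain ⟨U, hU⟩ : ∃ U : Finset (Fin N), U = ((univ.erase v).erase a).erase b := ⟨_, rfl⟩
  rw [← hU] at hE
  have hcard : U.card = N - 3 := by
    rw [hU, card_erase_of_mem, card_erase_of_mem, card_erase_of_mem (mem_univ _), card_univ,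
      Fintype.card_fin]
    · omega
    · simp [Ne.symm hva]
    · simp [Ne.symm hvb, Ne.symm hab]
  have hmemU : ∀ x, x ∉ U ↔ x = v ∨ x = a ∨ x = b := by
    intro x
    rw [hU]
    simp only [mem_erase, mem_univ, and_true]
    tauto
  obtain ⟨c0, hc0⟩ : ∃ c0 : Fin 3 × Fin 3 × Fin 3 → Fin N → Fin 3, c0 = fun z x =>
    if x = v then z.1 else if x = a then z.2.1 else z.2.2 := ⟨_, rfl⟩
  have hW : ∀ z : Fin 3 × Fin 3 × Fin 3,
      Win p t (N - 3) U (c0 z) v a b (t ^ 2 * (t * h) * (3 * s) ^ (N - 3)) := by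
    intro z
    have h1 := game hp t h s ht hh hs0 hs1 hs2 (N - 3) U hcard (c0 z) v a b hab hva hvb
      ((hmemU a).2 (Or.inr (Or.inl rfl))) ((hmemU b).2 (Or.inr (Or.inr rfl)))
      ((hmemU v).2 (Or.inl rfl)) hE
    refine h1.mono ?_
    have h2 : pot t h (c0 z v) (c0 z a) (c0 z b) ≤ t * h := by
      unfold pot
      split_ifs
      · exact le_rfl
      · nlinarith
      · nlinarith
    have h3 : 0 ≤ (3 * s) ^ (N - 3) := by positivity
    refine mul_le_mul_of_nonneg_right ?_ h3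
    exact mul_le_mul_of_nonneg_left h2 (sq_nonneg t)
  choose d hd1 hd2 using hW
  have hag : ∀ (z : Fin 3 × Fin 3 × Fin 3) (c : Fin N → Fin 3), c ∈ Agree U (c0 z) ↔
      (c v, c a, c b) = z := by
    intro z c
    rw [mem_Agree]
    constructor
    · intro h1
      have e1 := h1 v ((hmemU v).2 (Or.inl rfl))
      have e2 := h1 a ((hmemU a).2 (Or.inr (Or.inl rfl)))
      have e3 := h1 b ((hmemU b).2 (Or.inr (Or.inr rfl)))
      rw [hc0] at e1 e2 e3
      dsimp only at e1 e2 e3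
      rw [if_pos rfl] at e1
      rw [if_neg (Ne.symm hva), if_pos rfl] at e2
      rw [if_neg (Ne.symm hvb), if_neg (Ne.symm hab)] at e3
      rw [e1, e2, e3]
    · rintro rfl x hx
      rw [hc0]
      dsimp only
      rcases (hmemU x).1 hx with rfl | rfl | rfl
      · rw [if_pos rfl]
      · rw [if_neg (Ne.symm hva), if_pos rfl]
      · rw [if_neg (Ne.symm hvb), if_neg (Ne.symm hab)]
  refine ⟨fun c => d (c v, c a, c b) c, fun c => ?_, ?_⟩
  · obtain ⟨l, h1, _, h3⟩ := hd1 (c v, c a, c b) c ((hag _ c).2 rfl)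
    obtain ⟨h4, h5⟩ := good_path hp v l h1
    refine ⟨l.length + 1, _, h4, h5, ?_⟩
    dsimp only
    omega
  · rw [← sum_fiberwise univ (fun c : Fin N → Fin 3 => (c v, c a, c b))]
    have h1 : ∀ z : Fin 3 × Fin 3 × Fin 3,
        ∑ c ∈ univ.filter (fun c : Fin N → Fin 3 => (c v, c a, c b) = z),
          t ^ (d (c v, c a, c b) c) ≤ t ^ 2 * (t * h) * (3 * s) ^ (N - 3) := by
      intro z
      refine le_trans (le_of_eq ?_) (hd2 z)
      have h2 : univ.filter (fun c : Fin N → Fin 3 => (c v, c a, c b) = z) = Agree U (c0 z) := by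
        ext c
        rw [hag, mem_filter]
        simp
      rw [h2]
      refine sum_congr rfl fun c hc => ?_
      rw [(hag z c).1 hc]
    refine (sum_le_sum fun z _ => h1 z).trans ?_
    rw [sum_const, nsmul_eq_mul]
    have h2 : ((univ : Finset (Fin 3 × Fin 3 × Fin 3)).card : ℝ) = 27 := by
      simp [Fintype.card_prod]
    rw [h2]

/-- the balanced colourings -/
def bal (n : ℕ) : Finset (Fin (3 * n) → Fin 3) :=
  univ.filter (fun c => ∀ i, (univ.filter (fun x => c x = i)).card = n)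

theorem bal_ge (n : ℕ) : (3 * n).choose n * (2 * n).choose n ≤ (bal n).card := by
  classical
  obtain ⟨T, hT⟩ : ∃ T : Finset (Σ _ : Finset (Fin (3 * n)), Finset (Fin (3 * n))), T =
    (powersetCard n univ).sigma (fun A => powersetCard n (univ \ A)) := ⟨_, rfl⟩
  have hTc : T.card = (3 * n).choose n * (2 * n).choose n := by
    rw [hT, card_sigma]
    have h1 : ∀ A ∈ powersetCard n (univ : Finset (Fin (3 * n))),
        (powersetCard n (univ \ A)).card = (2 * n).choose n := by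
      intro A hA
      rw [mem_powersetCard] at hA
      rw [card_powersetCard, card_sdiff_of_subset hA.1, hA.2, card_univ, Fintype.card_fin]
      congr 1
      omega
    rw [sum_congr rfl h1, sum_const, card_powersetCard, card_univ, Fintype.card_fin, smul_eq_mul]
  rw [← hTc]
  refine card_le_card_of_injOn
    (fun AB x => if x ∈ AB.1 then (0 : Fin 3) else if x ∈ AB.2 then 1 else 2) ?_ ?_
  · rintro ⟨A, B⟩ hAB
    rw [hT, mem_coe, mem_sigma, mem_powersetCard, mem_powersetCard] at hAB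
    obtain ⟨⟨_, hA⟩, hB1, hB⟩ := hAB
    dsimp only at hA hB1 hB
    have hdis : ∀ x, x ∈ B → x ∉ A := fun x hx => (mem_sdiff.1 (hB1 hx)).2
    have e0 : univ.filter (fun x : Fin (3 * n) => (if x ∈ A then (0 : Fin 3) else
        if x ∈ B then 1 else 2) = 0) = A := by
      ext x
      by_cases hxA : x ∈ A <;> by_cases hxB : x ∈ B <;> simp [hxA, hxB]
    have e1 : univ.filter (fun x : Fin (3 * n) => (if x ∈ A then (0 : Fin 3) else
        if x ∈ B then 1 else 2) = 1) = B := by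
      ext x
      by_cases hxA : x ∈ A <;> by_cases hxB : x ∈ B
      · exact absurd hxA (hdis x hxB)
      · simp [hxA, hxB]
      · simp [hxA, hxB]
      · simp [hxA, hxB]
    have e2 : univ.filter (fun x : Fin (3 * n) => (if x ∈ A then (0 : Fin 3) else
        if x ∈ B then 1 else 2) = 2) = (univ \ A) \ B := by
      ext x
      by_cases hxA : x ∈ A <;> by_cases hxB : x ∈ B <;> simp [hxA, hxB]
    have hB1' : B ⊆ univ \ A := hB1
    rw [mem_coe, bal, mem_filter]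
    refine ⟨mem_univ _, fun i => ?_⟩
    fin_cases i
    · show (univ.filter (fun x : Fin (3 * n) => (if x ∈ A then (0 : Fin 3) else
        if x ∈ B then 1 else 2) = 0)).card = n
      rw [e0, hA]
    · show (univ.filter (fun x : Fin (3 * n) => (if x ∈ A then (0 : Fin 3) else
        if x ∈ B then 1 else 2) = 1)).card = n
      rw [e1, hB]
    · show (univ.filter (fun x : Fin (3 * n) => (if x ∈ A then (0 : Fin 3) else
        if x ∈ B then 1 else 2) = 2)).card = n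
      rw [e2, card_sdiff_of_subset hB1', card_sdiff_of_subset (subset_univ A), hA, hB, card_univ,
        Fintype.card_fin]
      omega
  · rintro ⟨A, B⟩ hAB ⟨A', B'⟩ hAB' heq
    rw [hT, mem_coe, mem_sigma, mem_powersetCard, mem_powersetCard] at hAB hAB'
    obtain ⟨_, hB1, _⟩ := hAB
    obtain ⟨_, hB1', _⟩ := hAB'
    dsimp only at hB1 hB1' heq
    have hdis : ∀ x, x ∈ B → x ∉ A := fun x hx => (mem_sdiff.1 (hB1 hx)).2
    have hdis' : ∀ x, x ∈ B' → x ∉ A' := fun x hx => (mem_sdiff.1 (hB1' hx)).2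
    have hA : A = A' := by
      ext x
      have h1 := congrFun heq x
      by_cases hxA : x ∈ A <;> by_cases hxA' : x ∈ A' <;> by_cases hxB : x ∈ B <;>
        by_cases hxB' : x ∈ B' <;> simp [hxA, hxA', hxB, hxB'] at h1 ⊢
    have hB : B = B' := by
      ext x
      have h1 := congrFun heq x
      subst hA
      by_cases hxA : x ∈ A
      · constructor
        · intro h; exact absurd hxA (hdis x h)
        · intro h; exact absurd hxA (hdis' x h)
      · by_cases hxB : x ∈ B <;> by_cases hxB' : x ∈ B' <;> simp [hxA, hxB, hxB'] at h1 ⊢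
    subst hA hB
    rfl

theorem mult_ge (n : ℕ) :
    (27 : ℝ) ^ n ≤ 2 * ((n : ℝ) + 1) ^ 2 * (((3 * n).choose n * (2 * n).choose n : ℕ) : ℝ) := by
  have hfac : ∀ n : ℕ, (3 * n).choose n * (2 * n).choose n * (n.factorial) ^ 3 =
      (3 * n).factorial := by
    intro n
    have h1 := Nat.choose_mul_factorial_mul_factorial (n := 3 * n) (k := n) (by omega)
    have h2 := Nat.choose_mul_factorial_mul_factorial (n := 2 * n) (k := n) (by omega)
    have h3 : 3 * n - n = 2 * n := by omega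
    have h4 : 2 * n - n = n := by omega
    rw [h3] at h1
    rw [h4] at h2
    rw [← h1, ← h2]
    ring
  obtain ⟨M, hM⟩ : ∃ M : ℕ → ℕ, M = fun n => (3 * n).choose n * (2 * n).choose n := ⟨_, rfl⟩
  have hrec : ∀ n : ℕ, (M (n + 1) : ℝ) * ((n : ℝ) + 1) ^ 2 =
      3 * (M n : ℝ) * (3 * n + 2) * (3 * n + 1) := by
    intro n
    have h1 := hfac n
    have h2 := hfac (n + 1)
    have h3 : (3 * (n + 1)).factorial = (3 * n + 3) * (3 * n + 2) * (3 * n + 1) *
        (3 * n).factorial := by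
      have e1 : 3 * (n + 1) = 3 * n + 2 + 1 := by ring
      rw [e1, Nat.factorial_succ, Nat.factorial_succ, Nat.factorial_succ]
      ring
    rw [h3, ← h1, Nat.factorial_succ] at h2
    have h4 : (M (n + 1) : ℝ) * (((n : ℝ) + 1) * n.factorial) ^ 3 =
        (3 * n + 3) * (3 * n + 2) * (3 * n + 1) * ((M n : ℝ) * (n.factorial : ℝ) ^ 3) := by
      rw [hM]
      dsimp only
      exact_mod_cast h2
    have h5 : (0 : ℝ) < n.factorial := by exact_mod_cast n.factorial_pos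
    have h6 : (0 : ℝ) < (n : ℝ) + 1 := by positivity
    have h7 : ((n : ℝ) + 1) * (n.factorial : ℝ) ^ 3 ≠ 0 := by positivity
    apply mul_right_cancel₀ h7
    linear_combination h4
  have hgoal : ∀ n : ℕ, (27 : ℝ) ^ n ≤ 2 * ((n : ℝ) + 1) ^ 2 * (M n : ℝ) := by
    intro n
    induction n with
    | zero =>
      rw [hM]
      norm_num
    | succ n ih =>
      rcases Nat.eq_zero_or_pos n with h0 | h0
      · subst h0
        have := hrec 0
        have h1 : M 0 = 1 := by rw [hM]; norm_num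
        rw [h1] at this
        norm_num at this ⊢
        rw [this]
        norm_num
      · have hn : (1 : ℝ) ≤ n := by exact_mod_cast h0
        have h1 := hrec n
        have hMp : (0 : ℝ) ≤ M n := by positivity
        have h6 : (0 : ℝ) < ((n : ℝ) + 1) ^ 2 := by positivity
        push_cast
        rw [pow_succ]
        have h2 : 2 * ((n : ℝ) + 1 + 1) ^ 2 * (M (n + 1) : ℝ) * ((n : ℝ) + 1) ^ 2 =
            2 * ((n : ℝ) + 2) ^ 2 * (3 * (M n : ℝ) * (3 * n + 2) * (3 * n + 1)) := by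
          rw [← h1]
          ring
        have h3 : 27 * (2 * ((n : ℝ) + 1) ^ 2 * (M n : ℝ)) * ((n : ℝ) + 1) ^ 2 ≤
            2 * ((n : ℝ) + 2) ^ 2 * (3 * (M n : ℝ) * (3 * n + 2) * (3 * n + 1)) := by
          have h4 : 9 * ((n : ℝ) + 1) ^ 4 ≤ ((n : ℝ) + 2) ^ 2 * ((3 * n + 2) * (3 * n + 1)) := by
            have h5 : ((n : ℝ) + 2) ^ 2 * ((3 * n + 2) * (3 * n + 1)) - 9 * ((n : ℝ) + 1) ^ 4 =
                9 * (n : ℝ) ^ 3 + 20 * (n : ℝ) ^ 2 + 8 * n - 1 := by ring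
            have h7 : 0 ≤ 9 * (n : ℝ) ^ 3 + 20 * (n : ℝ) ^ 2 := by positivity
            linarith
          have h5 := mul_le_mul_of_nonneg_left h4 (by positivity : (0 : ℝ) ≤ 6 * (M n : ℝ))
          nlinarith
        have h8 : (27 : ℝ) ^ n * 27 * ((n : ℝ) + 1) ^ 2 ≤
            2 * ((n : ℝ) + 1 + 1) ^ 2 * (M (n + 1) : ℝ) * ((n : ℝ) + 1) ^ 2 := by
          rw [h2]
          refine le_trans ?_ h3
          refine mul_le_mul_of_nonneg_right ?_ h6.le
          linarith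
        exact le_of_mul_le_mul_right h8 h6
  have := hgoal n
  rw [hM] at this
  exact this

theorem bal_card (n : ℕ) : (27 : ℝ) ^ n ≤ 2 * ((n : ℝ) + 1) ^ 2 * ((bal n).card : ℝ) := by
  refine (mult_ge n).trans ?_
  refine mul_le_mul_of_nonneg_left ?_ (by positivity)
  exact_mod_cast bal_ge n

theorem almost_all (ε : ℝ) (hε : 0 < ε) (hε1 : ε ≤ 1) (n : ℕ) (hn : 1 ≤ n)
    (p : Fin (3 * n) → ℝ × ℝ) (hinj : Function.Injective p) (hp : GenPos p)
    (bad : Finset (Fin (3 * n) → Fin 3)) (hbad : ∀ c ∈ bad, ¬ ∃ (m : ℕ) (v : ℕ → Fin (3 * n)),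
      (8 / 3 - ε) * n ≤ m ∧ SimplePath p m v ∧ ∀ i, i + 1 < m → c (v i) ≠ c (v (i + 1))) :
    (bad.card : ℝ) ≤ 80 * ((n : ℝ) + 1) ^ 2 * Real.exp (-(ε ^ 2 * n / 20)) * ((bal n).card : ℝ) := by
  obtain ⟨τ, hτ⟩ : ∃ τ : ℝ, τ = ε / 10 := ⟨_, rfl⟩
  have hτ0 : 0 < τ := by rw [hτ]; positivity
  have hτ1 : τ ≤ 1 / 10 := by rw [hτ]; linarith
  obtain ⟨d, hd1, hd2⟩ := total hp hinj (by omega) (1 + τ) (1 + τ / 3) (1 + τ / 9 + τ ^ 2)
    (by linarith) (by linarith) (by positivity) (by nlinarith) (by nlinarith [sq_nonneg τ, mul_pos hτ0 hτ0, mul_pos (mul_pos hτ0 hτ0) hτ0])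
  have hnR : (0 : ℝ) < n := by exact_mod_cast hn
  obtain ⟨t, ht⟩ : ∃ t : ℝ, t = 1 + τ := ⟨_, rfl⟩
  obtain ⟨s, hs⟩ : ∃ s : ℝ, s = 1 + τ / 9 + τ ^ 2 := ⟨_, rfl⟩
  rw [← ht, ← hs] at hd2
  have ht1 : 1 < t := by rw [ht]; linarith
  have hs1 : 1 ≤ s := by rw [hs]; nlinarith
  -- the bad colourings miss many points
  have h1 : ∀ c ∈ bad, t ^ ((1 / 3 + ε) * n) ≤ t ^ (d c) := by
    intro c hc
    rw [← Real.rpow_natCast t (d c)]
    refine Real.rpow_le_rpow_of_exponent_le ht1.le ?_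
    by_contra hlt
    rw [not_le] at hlt
    obtain ⟨m, v, hv1, hv2, hv3⟩ := hd1 c
    apply hbad c hc
    refine ⟨m, v, ?_, hv1, hv2⟩
    have h2 : ((3 * n : ℕ) : ℝ) ≤ ((m + d c : ℕ) : ℝ) := by exact_mod_cast hv3
    push_cast at h2
    nlinarith
  have h2 : (bad.card : ℝ) * t ^ ((1 / 3 + ε) * n) ≤
      27 * (t ^ 2 * (t * (1 + τ / 3)) * (3 * s) ^ (3 * n - 3)) := by
    calc (bad.card : ℝ) * t ^ ((1 / 3 + ε) * n) = ∑ c ∈ bad, t ^ ((1 / 3 + ε) * n) := by
          rw [sum_const, nsmul_eq_mul]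
      _ ≤ ∑ c ∈ bad, t ^ (d c) := sum_le_sum h1
      _ ≤ ∑ c, t ^ (d c) := by
          refine sum_le_sum_of_subset_of_nonneg (subset_univ _) fun _ _ _ => ?_
          have : 0 < t := by linarith
          positivity
      _ ≤ _ := hd2
  have h3 : 27 * (t ^ 2 * (t * (1 + τ / 3)) * (3 * s) ^ (3 * n - 3)) ≤
      40 * ((27 : ℝ) ^ n * s ^ (3 * n)) := by
    have e1 : (3 * s) ^ (3 * n - 3) ≤ (3 * s) ^ (3 * n) :=
      pow_le_pow_right₀ (by linarith) (by omega)
    have e2 : (3 * s) ^ (3 * n) = (27 : ℝ) ^ n * s ^ (3 * n) := by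
      rw [mul_pow, pow_mul (3 : ℝ) 3 n]
      norm_num
    have e3 : t ^ 2 * (t * (1 + τ / 3)) ≤ 40 / 27 := by
      have e4 : t ≤ 11 / 10 := by rw [ht]; linarith
      have e5 : t ^ 3 ≤ (11 / 10) ^ 3 := pow_le_pow_left₀ (by linarith) e4 3
      have e6 : t ^ 2 * (t * (1 + τ / 3)) = t ^ 3 * (1 + τ / 3) := by ring
      rw [e6]
      have e7 : 1 + τ / 3 ≤ 31 / 30 := by linarith
      have e8 : t ^ 3 * (1 + τ / 3) ≤ (11 / 10) ^ 3 * (31 / 30) :=
        mul_le_mul e5 e7 (by linarith) (by norm_num)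
      refine e8.trans ?_
      norm_num
    have e9 : 0 ≤ (3 * s) ^ (3 * n - 3) := by positivity
    have e10 : t ^ 2 * (t * (1 + τ / 3)) * (3 * s) ^ (3 * n - 3) ≤
        40 / 27 * ((27 : ℝ) ^ n * s ^ (3 * n)) := by
      rw [← e2]
      exact mul_le_mul e3 e1 e9 (by norm_num)
    linarith
  -- exponentials
  have h4 : s ^ (3 * n) ≤ Real.exp (n * (τ / 3 + 3 * τ ^ 2)) := by
    have e1 : s ≤ Real.exp (τ / 9 + τ ^ 2) := by
      have := Real.add_one_le_exp (τ / 9 + τ ^ 2)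
      rw [hs]
      linarith
    have e2 : s ^ (3 * n) ≤ (Real.exp (τ / 9 + τ ^ 2)) ^ (3 * n) :=
      pow_le_pow_left₀ (by linarith) e1 _
    refine e2.trans (le_of_eq ?_)
    rw [← Real.exp_nat_mul]
    congr 1
    push_cast
    ring
  have h5 : Real.exp (n * ((1 / 3 + ε) * (τ - τ ^ 2))) ≤ t ^ ((1 / 3 + ε) * n) := by
    rw [Real.rpow_def_of_pos (by linarith)]
    refine Real.exp_le_exp.2 ?_
    have e1 : τ - τ ^ 2 ≤ Real.log t := by
      have e2 := Real.one_sub_inv_le_log_of_pos (by linarith : 0 < t)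
      refine le_trans ?_ e2
      have e3 : t⁻¹ ≤ 1 - τ + τ ^ 2 := by
        rw [inv_le_iff_one_le_mul₀ (by linarith), ht]
        nlinarith [mul_pos (mul_pos hτ0 hτ0) hτ0]
      linarith
    have e4 : 0 ≤ (1 / 3 + ε) * (n : ℝ) := by positivity
    have e5 := mul_le_mul_of_nonneg_right e1 e4
    linarith
  have h6 : Real.exp (n * (τ / 3 + 3 * τ ^ 2)) ≤
      Real.exp (-(ε ^ 2 * n / 20)) * Real.exp (n * ((1 / 3 + ε) * (τ - τ ^ 2))) := by
    rw [← Real.exp_add]
    refine Real.exp_le_exp.2 ?_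
    have e1 : τ / 3 + 3 * τ ^ 2 ≤ -(ε ^ 2 / 20) + (1 / 3 + ε) * (τ - τ ^ 2) := by
      rw [hτ]
      nlinarith [mul_pos hε hε, mul_pos (mul_pos hε hε) hε, mul_le_mul_of_nonneg_left hε1 (mul_pos hε hε).le]
    have e2 := mul_le_mul_of_nonneg_left e1 hnR.le
    have e3 : (n : ℝ) * (-(ε ^ 2 / 20) + (1 / 3 + ε) * (τ - τ ^ 2)) =
        -(ε ^ 2 * n / 20) + n * ((1 / 3 + ε) * (τ - τ ^ 2)) := by ring
    linarith
  have h7 : (bad.card : ℝ) * t ^ ((1 / 3 + ε) * n) ≤
      40 * ((27 : ℝ) ^ n * Real.exp (-(ε ^ 2 * n / 20))) * t ^ ((1 / 3 + ε) * n) := by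
    refine h2.trans (h3.trans ?_)
    have e1 : s ^ (3 * n) ≤ Real.exp (-(ε ^ 2 * n / 20)) * t ^ ((1 / 3 + ε) * n) :=
      h4.trans (h6.trans (mul_le_mul_of_nonneg_left h5 (Real.exp_pos _).le))
    have e2 := mul_le_mul_of_nonneg_left e1 (by positivity : (0 : ℝ) ≤ 40 * 27 ^ n)
    linarith
  have h8 : (bad.card : ℝ) ≤ 40 * ((27 : ℝ) ^ n * Real.exp (-(ε ^ 2 * n / 20))) :=
    le_of_mul_le_mul_right h7 (Real.rpow_pos_of_pos (by linarith) _)
  refine h8.trans ?_
  have h9 := mul_le_mul_of_nonneg_left (bal_card n)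
    (by positivity : 0 ≤ 40 * Real.exp (-(ε ^ 2 * n / 20)))
  linarith

end Pool.Agent.H24.AP
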