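import Pool.Agent.H24.AP.Zig

/-!
# Alternating paths: convex position and double chains have interlacing cyclic orders

`p 0, ..., p (a-1)` is the upper chain from left to right, `p a, ..., p (N-1)` the lower chain from right to left: the
triples inside a chain have a constant orientation, the mixed triples are clockwise. All triples clockwise: convex
position; the other sign inside the chains: the usual double chain.
-/

set_option autoImplicit false

namespace Pool.Agent.H24.AP

theorem disj_of_side (A B C D : ℝ × ℝ) (s : ℝ) (h1 : 0 < s * ori A B C) (h2 : 0 < s * ori A B D) :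
    Disjoint (segment ℝ A B) (segment ℝ C D) := by
  rw [Set.disjoint_left]
  intro z hz1 hz2
  rw [segment_eq_image] at hz1 hz2
  obtain ⟨t, _, rfl⟩ := hz1
  obtain ⟨u, hu, hz⟩ := hz2
  dsimp only at hz
  have h3 : ori A B ((1 - t) • A + t • B) = 0 := by
    rw [ori_comb, ori_self, ori_self']
    ring
  rw [← hz, ori_comb] at h3
  have h4 : 0 ≤ (1 - u) * (s * ori A B C) := mul_nonneg (by linarith [hu.2]) h1.le
  have h5 : 0 ≤ u * (s * ori A B D) := mul_nonneg hu.1 h2.le
  have h6 : (1 - u) * (s * ori A B C) + u * (s * ori A B D) = 0 := by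
    have : s * ((1 - u) * ori A B C + u * ori A B D) = 0 := by rw [h3, mul_zero]
    linarith
  rcases eq_or_lt_of_le hu.1 with h7 | h7
  · rw [← h7] at h6
    linarith
  · have := mul_pos h7 h2
    linarith

theorem double_chain {N : ℕ} (p : Fin N → ℝ × ℝ) (a : ℕ) (s u : ℝ)
    (hU : ∀ i j k : Fin N, i < j → j < k → (k : ℕ) < a → 0 < s * ori (p i) (p j) (p k))
    (hL : ∀ i j k : Fin N, i < j → j < k → a ≤ (i : ℕ) → 0 < u * ori (p i) (p j) (p k))
    (hM : ∀ i j k : Fin N, i < j → j < k → (i : ℕ) < a → a ≤ (k : ℕ) →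
      ori (p i) (p j) (p k) < 0) : Interlacing p := by
  intro i j k l hij hjk hkl
  have hij' : (i : ℕ) < j := hij
  have hjk' : (j : ℕ) < k := hjk
  have hkl' : (k : ℕ) < l := hkl
  have hil : i < l := hij.trans (hjk.trans hkl)
  have hik : i < k := hij.trans hjk
  have hjl : j < l := hjk.trans hkl
  rcases Nat.lt_or_ge l a with h | h
  · -- all in the upper chain
    refine ⟨disj_of_side _ _ _ _ s (hU _ _ _ hij hjk (by omega)) (hU _ _ _ hij hjl h), ?_⟩
    refine (disj_of_side _ _ _ _ s ?_ ?_).symm
    · rw [ori_rot]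
      exact hU _ _ _ hij hjk (by omega)
    · exact hU _ _ _ hjk hkl h
  rcases Nat.lt_or_ge i a with h' | h'
  swap
  · refine ⟨disj_of_side _ _ _ _ u (hL _ _ _ hij hjk h') (hL _ _ _ hij hjl h'), ?_⟩
    refine (disj_of_side _ _ _ _ u ?_ ?_).symm
    · rw [ori_rot]
      exact hL _ _ _ hij hjk h'
    · exact hL _ _ _ hjk hkl (by omega)
  -- `i` above, `l` below
  have e1 := hM i j l hij hjl h' h
  have e2 := hM i k l hik hkl h' h
  constructor
  · rcases Nat.lt_or_ge k a with hk | hk
    · -- `i, j, k` above
      have e3 := hM j k l hjk hkl (by omega) h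
      refine (disj_of_side _ _ _ _ (-1) ?_ ?_).symm
      · rw [ori_rot]
        linarith
      · rw [ori_rot]
        linarith
    · have e3 := hM i j k hij hjk h' hk
      exact disj_of_side _ _ _ _ (-1) (by linarith) (by linarith)
  · refine disj_of_side _ _ _ _ 1 ?_ ?_
    · have : ori (p i) (p l) (p j) = - ori (p i) (p j) (p l) := by
        unfold ori; ring
      rw [this]; linarith
    · have : ori (p i) (p l) (p k) = - ori (p i) (p k) (p l) := by
        unfold ori; ring
      rw [this]; linarith

end Pool.Agent.H24.AP
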