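import Pool.Agent.H24.AP.Geo

/-!
# Alternating paths: the game with a hand of two points

`Win`: for all colourings that agree with `c0` outside `U`, a good list from `v` through `{a,b} ∪ U` with `d c` points
missing, and the sum of `t^(d c)` is at most `B`. `game` bounds it by the potential `pot`.
-/

set_option autoImplicit false

namespace Pool.Agent.H24.AP

open Finset

/-- the colourings that agree with `c0` outside `U` -/
def Agree {N : ℕ} (U : Finset (Fin N)) (c0 : Fin N → Fin 3) : Finset (Fin N → Fin 3) :=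
  univ.filter (fun c => ∀ x, x ∉ U → c x = c0 x)

theorem mem_Agree {N : ℕ} {U : Finset (Fin N)} {c0 c : Fin N → Fin 3} :
    c ∈ Agree U c0 ↔ ∀ x, x ∉ U → c x = c0 x := by
  simp [Agree]

theorem agree_fiber {N : ℕ} {U : Finset (Fin N)} {c0 : Fin N → Fin 3} {w : Fin N} (hw : w ∈ U)
    (z : Fin 3) : (Agree U c0).filter (fun c => c w = z) =
      Agree (U.erase w) (Function.update c0 w z) := by
  ext c
  rw [mem_filter, mem_Agree, mem_Agree]
  constructor
  · rintro ⟨h1, h2⟩ x hx
    by_cases hxw : x = w
    · rw [hxw, h2, Function.update_self]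
    · rw [Function.update_of_ne hxw]
      exact h1 x (fun h => hx (mem_erase.2 ⟨hxw, h⟩))
  · intro h1
    refine ⟨fun x hx => ?_, ?_⟩
    · have hxw : x ≠ w := fun h => hx (h ▸ hw)
      rw [h1 x (fun h => hx (mem_of_mem_erase h)), Function.update_of_ne hxw]
    · rw [h1 w (notMem_erase w U), Function.update_self]

theorem agree_sum {N : ℕ} {U : Finset (Fin N)} {c0 : Fin N → Fin 3} {w : Fin N} (hw : w ∈ U)
    (F : (Fin N → Fin 3) → ℝ) :
    ∑ c ∈ Agree U c0, F c =
      ∑ z : Fin 3, ∑ c ∈ Agree (U.erase w) (Function.update c0 w z), F c := by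
  rw [← sum_fiberwise (Agree U c0) (fun c => c w) F]
  exact sum_congr rfl fun z _ => by rw [agree_fiber hw z]

/-- the value of a position -/
def Win {N : ℕ} (p : Fin N → ℝ × ℝ) (t : ℝ) (k : ℕ) (U : Finset (Fin N)) (c0 : Fin N → Fin 3)
    (v a b : Fin N) (B : ℝ) : Prop :=
  ∃ d : (Fin N → Fin 3) → ℕ,
    (∀ c ∈ Agree U c0, ∃ l : List (Fin N), Good p c v l ∧
      (∀ x ∈ l, x ∈ insert a (insert b U)) ∧ k + 2 ≤ l.length + d c) ∧
    ∑ c ∈ Agree U c0, t ^ (d c) ≤ B

theorem Win.symm {N : ℕ} {p : Fin N → ℝ × ℝ} {t : ℝ} {k : ℕ} {U : Finset (Fin N)}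
    {c0 : Fin N → Fin 3} {v a b : Fin N} {B : ℝ} (h : Win p t k U c0 v a b B) :
    Win p t k U c0 v b a B := by
  obtain ⟨d, h1, h2⟩ := h
  refine ⟨d, fun c hc => ?_, h2⟩
  obtain ⟨l, h3, h4, h5⟩ := h1 c hc
  exact ⟨l, h3, fun x hx => by rw [Finset.insert_comm]; exact h4 x hx, h5⟩

theorem Win.mono {N : ℕ} {p : Fin N → ℝ × ℝ} {t : ℝ} {k : ℕ} {U : Finset (Fin N)}
    {c0 : Fin N → Fin 3} {v a b : Fin N} {B B' : ℝ} (h : Win p t k U c0 v a b B) (hB : B ≤ B') :
    Win p t k U c0 v a b B' := by
  obtain ⟨d, h1, h2⟩ := h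
  exact ⟨d, h1, h2.trans hB⟩

/-- playing `a` -/
theorem play {N : ℕ} {p : Fin N → ℝ × ℝ} {t : ℝ} {k : ℕ} {U : Finset (Fin N)}
    {c0 : Fin N → Fin 3} {v a b w : Fin N} (hw : w ∈ U) (hva : v ≠ a) (hvb : v ≠ b)
    (ha : a ∉ U) (hv : v ∉ U) (hc : c0 v ≠ c0 a)
    (hE : Edge p (insert a (insert b U)) a b v) (hab : a ≠ b) (B : Fin 3 → ℝ)
    (h : ∀ z, Win p t k (U.erase w) (Function.update c0 w z) a b w (B z)) :
    Win p t (k + 1) U c0 v a b (∑ z, B z) := by
  choose d h1 h2 using h
  refine ⟨fun c => d (c w) c, fun c hcA => ?_, ?_⟩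
  · have hcz : c ∈ Agree (U.erase w) (Function.update c0 w (c w)) := by
      rw [← agree_fiber hw, mem_filter]
      exact ⟨hcA, rfl⟩
    obtain ⟨l, h3, h4, h5⟩ := h1 (c w) c hcz
    rw [mem_Agree] at hcA
    have h6 : ∀ x ∈ l, x ∈ insert b U := by
      intro x hx
      have := h4 x hx
      rw [insert_erase hw] at this
      exact this
    refine ⟨a :: l, ⟨?_, ?_, ?_, h3⟩, ?_, ?_⟩
    · rw [hcA v hv, hcA a ha]
      exact hc
    · intro hmem
      rw [List.mem_cons] at hmem
      rcases hmem with h7 | h7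
      · exact hva h7
      · have := h6 v h7
        rw [mem_insert] at this
        rcases this with h8 | h8
        · exact hvb h8
        · exact hv h8
    · obtain ⟨s, h7, h8⟩ := hE
      refine ⟨b, s, h7, fun x hx => ?_⟩
      by_cases hxb : x = b
      · rw [hxb, ori_self, mul_zero]
      · have h9 := h6 x hx
        have hxU : x ∈ U := by
          rw [mem_insert] at h9
          exact h9.resolve_left hxb
        exact (h8 x (by simp [hxU]) (fun h => ha (h ▸ hxU)) hxb).le
    · intro x hx
      rw [List.mem_cons] at hx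
      rcases hx with h7 | h7
      · rw [h7]; exact mem_insert_self a _
      · exact mem_insert_of_mem (h6 x h7)
    · rw [List.length_cons]
      dsimp only
      omega
  · rw [agree_sum hw]
    refine sum_le_sum fun z _ => ?_
    refine le_trans (le_of_eq ?_) (h2 z)
    refine sum_congr rfl fun c hcz => ?_
    have : c w = z := by
      rw [mem_Agree] at hcz
      rw [hcz w (notMem_erase w U), Function.update_self]
    dsimp only
    rw [this]

/-- discarding `a` -/
theorem skip {N : ℕ} {p : Fin N → ℝ × ℝ} {t : ℝ} {k : ℕ} {U : Finset (Fin N)}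
    {c0 : Fin N → Fin 3} {v a b w : Fin N} (hw : w ∈ U) (B : Fin 3 → ℝ)
    (h : ∀ z, Win p t k (U.erase w) (Function.update c0 w z) v b w (B z)) (ht : 0 ≤ t) :
    Win p t (k + 1) U c0 v a b (t * ∑ z, B z) := by
  choose d h1 h2 using h
  refine ⟨fun c => d (c w) c + 1, fun c hcA => ?_, ?_⟩
  · have hcz : c ∈ Agree (U.erase w) (Function.update c0 w (c w)) := by
      rw [← agree_fiber hw, mem_filter]
      exact ⟨hcA, rfl⟩
    obtain ⟨l, h3, h4, h5⟩ := h1 (c w) c hcz
    refine ⟨l, h3, fun x hx => ?_, ?_⟩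
    · have := h4 x hx
      rw [insert_erase hw] at this
      exact mem_insert_of_mem this
    · dsimp only
      omega
  · rw [agree_sum hw, mul_sum]
    refine sum_le_sum fun z _ => ?_
    refine le_trans (le_of_eq ?_) (mul_le_mul_of_nonneg_left (h2 z) ht)
    rw [mul_sum]
    refine sum_congr rfl fun c hcz => ?_
    have : c w = z := by
      rw [mem_Agree] at hcz
      rw [hcz w (notMem_erase w U), Function.update_self]
    dsimp only
    rw [this, pow_succ]
    ring

/-- the potential of last colour `l` and hand `x, y` -/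
noncomputable def pot (t h : ℝ) (l x y : Fin 3) : ℝ := if x = y then (if x = l then t * h else h) else 1

theorem pot_symm (t h : ℝ) (l x y : Fin 3) : pot t h l x y = pot t h l y x := by
  unfold pot
  by_cases hxy : x = y
  · subst hxy; rfl
  · rw [if_neg hxy, if_neg (Ne.symm hxy)]

theorem pot_sum (t h s : ℝ) (h1 : 2 + h ≤ 3 * s) (h2 : 2 + t * h ≤ 3 * s * h) (l y : Fin 3) :
    ∑ z, pot t h l y z ≤ 3 * s * (if y = l then h else 1) := by
  unfold pot
  rw [Fin.sum_univ_three]
  fin_cases l <;> fin_cases y <;> simp <;> linarith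

theorem game {N : ℕ} {p : Fin N → ℝ × ℝ} (hp : GenPos p) (t h s : ℝ) (ht : 1 ≤ t) (hh : 1 ≤ h)
    (hs0 : 0 ≤ s) (hs1 : 2 + h ≤ 3 * s) (hs2 : 2 + t * h ≤ 3 * s * h) :
    ∀ (k : ℕ) (U : Finset (Fin N)), U.card = k → ∀ (c0 : Fin N → Fin 3) (v a b : Fin N),
      a ≠ b → v ≠ a → v ≠ b → a ∉ U → b ∉ U → v ∉ U →
      Edge p (insert a (insert b U)) a b v →
      Win p t k U c0 v a b (t ^ 2 * pot t h (c0 v) (c0 a) (c0 b) * (3 * s) ^ k) := by
  intro k
  induction k with
  | zero =>
    intro U hU c0 v a b _ _ _ _ _ _ _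
    rw [card_eq_zero] at hU
    subst hU
    refine ⟨fun _ => 2, fun c _ => ⟨[], trivial, by simp, by simp⟩, ?_⟩
    have h1 : Agree (∅ : Finset (Fin N)) c0 = {c0} := by
      ext c
      rw [mem_Agree, mem_singleton]
      constructor
      · intro h
        funext x
        exact h x (by simp)
      · rintro rfl x _
        rfl
    rw [h1, sum_singleton, pow_zero, mul_one]
    have h2 : 1 ≤ pot t h (c0 v) (c0 a) (c0 b) := by
      unfold pot
      split_ifs
      · nlinarith
      · exact hh
      · exact le_rfl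
    dsimp only
    nlinarith [sq_nonneg t]
  | succ k ih =>
    intro U hU c0 v a b hab hva hvb ha hb hv hE
    have hUne : U.Nonempty := by
      rw [← card_pos]; omega
    have h3s : 0 ≤ (3 * s) ^ k := by positivity
    have ht0 : 0 < t := by linarith
    -- playing `a`, general form
    have hplay : ∀ a b : Fin N, a ≠ b → v ≠ a → v ≠ b → a ∉ U → b ∉ U →
        Edge p (insert a (insert b U)) a b v → c0 v ≠ c0 a →
        Win p t (k + 1) U c0 v a b
          (t ^ 2 * (3 * s) ^ k * (3 * s * (if c0 b = c0 a then h else 1))) := by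
      intro a b hab hva hvb ha hb hE hc
      obtain ⟨w, hw, hE2⟩ := edge_visit hp hUne ha hb hE
      have hbw : b ≠ w := fun h => hb (h ▸ hw)
      have haw : a ≠ w := fun h => ha (h ▸ hw)
      have h1 := play (t := t) (k := k) hw hva hvb ha hv hc hE hab
        (fun z => t ^ 2 * pot t h (c0 a) (c0 b) z * (3 * s) ^ k) (fun z => by
          have h2 := ih (U.erase w) (by rw [card_erase_of_mem hw]; omega)
            (Function.update c0 w z) a b w hbw hab haw
            (fun h => hb (mem_of_mem_erase h)) (notMem_erase w U)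
            (fun h => ha (mem_of_mem_erase h)) (by rw [insert_erase hw]; exact hE2)
          rw [Function.update_of_ne haw, Function.update_of_ne hbw, Function.update_self] at h2
          exact h2)
      refine h1.mono ?_
      have h3 := pot_sum t h s hs1 hs2 (c0 a) (c0 b)
      have h4 : ∑ z, t ^ 2 * pot t h (c0 a) (c0 b) z * (3 * s) ^ k =
          t ^ 2 * (3 * s) ^ k * ∑ z, pot t h (c0 a) (c0 b) z := by
        rw [mul_sum]
        exact sum_congr rfl fun z _ => by ring
      rw [h4]
      exact mul_le_mul_of_nonneg_left h3 (by positivity)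
    by_cases hxy : c0 a = c0 b
    · by_cases hxl : c0 a = c0 v
      · -- stuck: discard `a`
        obtain ⟨w, hw, hE2⟩ := edge_skip hp hUne ha hb hv hvb hE
        have hbw : b ≠ w := fun h => hb (h ▸ hw)
        have hvw : v ≠ w := fun h => hv (h ▸ hw)
        have h1 := skip (t := t) (k := k) (a := a) hw
          (fun z => t ^ 2 * pot t h (c0 v) (c0 b) z * (3 * s) ^ k) (fun z => by
            have h2 := ih (U.erase w) (by rw [card_erase_of_mem hw]; omega)
              (Function.update c0 w z) v b w hbw hvb hvw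
              (fun h => hb (mem_of_mem_erase h)) (notMem_erase w U)
              (fun h => hv (mem_of_mem_erase h)) (by rw [insert_erase hw]; exact hE2)
            rw [Function.update_of_ne hvw, Function.update_of_ne hbw, Function.update_self] at h2
            exact h2) ht0.le
        refine h1.mono ?_
        have h3 := pot_sum t h s hs1 hs2 (c0 v) (c0 b)
        have h4 : ∑ z, t ^ 2 * pot t h (c0 v) (c0 b) z * (3 * s) ^ k =
            t ^ 2 * (3 * s) ^ k * ∑ z, pot t h (c0 v) (c0 b) z := by
          rw [mul_sum]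
          exact sum_congr rfl fun z _ => by ring
        rw [h4]
        have h5 : c0 b = c0 v := by rw [← hxy]; exact hxl
        rw [if_pos h5] at h3
        have h6 : pot t h (c0 v) (c0 a) (c0 b) = t * h := by
          unfold pot
          rw [if_pos hxy, if_pos hxl]
        rw [h6]
        calc t * (t ^ 2 * (3 * s) ^ k * ∑ z, pot t h (c0 v) (c0 b) z) ≤
              t * (t ^ 2 * (3 * s) ^ k * (3 * s * h)) := by
              refine mul_le_mul_of_nonneg_left ?_ ht0.le
              exact mul_le_mul_of_nonneg_left h3 (by positivity)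
          _ = t ^ 2 * (t * h) * (3 * s) ^ (k + 1) := by rw [pow_succ]; ring
      · have h1 := hplay a b hab hva hvb ha hb hE (Ne.symm hxl)
        refine h1.mono (le_of_eq ?_)
        have h6 : pot t h (c0 v) (c0 a) (c0 b) = h := by
          unfold pot
          rw [if_pos hxy, if_neg hxl]
        rw [h6, if_pos hxy.symm, pow_succ]
        ring
    · have h6 : pot t h (c0 v) (c0 a) (c0 b) = 1 := by
        unfold pot
        rw [if_neg hxy]
      rw [h6]
      by_cases hxl : c0 a = c0 v
      · -- play `b`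
        have hyl : c0 v ≠ c0 b := by rw [← hxl]; exact hxy
        have h1 := hplay b a hab.symm hvb hva hb ha
          (by rw [Finset.insert_comm]; exact hE.symm) hyl
        refine (h1.mono (le_of_eq ?_)).symm
        rw [if_neg hxy, pow_succ]
        ring
      · have h1 := hplay a b hab hva hvb ha hb hE (Ne.symm hxl)
        refine h1.mono (le_of_eq ?_)
        rw [if_neg (Ne.symm hxy), pow_succ]
        ring

end Pool.Agent.H24.AP
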