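import Mathlib

/-!
# Alternating paths: segments, orientations, hull edges

`SimplePath`, `Good` (lists of points visited from outside the hull of the rest), and the two steps of hull peeling:
after the removal of an end `a` of a hull edge `ab` the other end `b` lies on a new hull edge which is seen from `a`
(`edge_visit`) and on a hull edge which is seen from the current point `v` (`edge_skip`).
-/

set_option autoImplicit false

namespace Pool.Agent.H24.AP

open Finset

/-- `v 0, ..., v (m-1)` are distinct and form a simple polygonal path -/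
structure SimplePath {N : ℕ} (p : Fin N → ℝ × ℝ) (m : ℕ) (v : ℕ → Fin N) : Prop where
  inj : ∀ i < m, ∀ j < m, v i = v j → i = j
  far : ∀ i j, i + 1 < j → j + 1 < m →
    Disjoint (segment ℝ (p (v i)) (p (v (i + 1)))) (segment ℝ (p (v j)) (p (v (j + 1))))
  near : ∀ i, i + 2 < m →
    segment ℝ (p (v i)) (p (v (i + 1))) ∩ segment ℝ (p (v (i + 1))) (p (v (i + 2))) =
      {p (v (i + 1))}

/-- no three of the points are collinear -/
def GenPos {N : ℕ} (p : Fin N → ℝ × ℝ) : Prop :=
  ∀ i j k : Fin N, i ≠ j → j ≠ k → i ≠ k → ¬ Collinear ℝ ({p i, p j, p k} : Set (ℝ × ℝ))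

/-- twice the signed area of the triangle -/
def ori (a b c : ℝ × ℝ) : ℝ := (b.1 - a.1) * (c.2 - a.2) - (b.2 - a.2) * (c.1 - a.1)

theorem ori_swap (a b c : ℝ × ℝ) : ori b a c = - ori a b c := by
  unfold ori; ring

theorem ori_rot (a b c : ℝ × ℝ) : ori b c a = ori a b c := by
  unfold ori; ring

theorem ori_self (a b : ℝ × ℝ) : ori a b b = 0 := by
  unfold ori; ring

theorem ori_self' (a b : ℝ × ℝ) : ori a b a = 0 := by
  unfold ori; ring

theorem collinear_of_ori (a b c : ℝ × ℝ) (h : ori a b c = 0) :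
    Collinear ℝ ({a, b, c} : Set (ℝ × ℝ)) := by
  by_cases hab : a = b
  · subst hab
    simpa using collinear_pair ℝ a c
  rw [collinear_iff_of_mem (p₀ := a) (by simp)]
  refine ⟨b - a, ?_⟩
  unfold ori at h
  have key : ∃ r : ℝ, c = r • (b - a) + a := by
    by_cases h1 : b.1 - a.1 = 0
    · have h2 : b.2 - a.2 ≠ 0 := by
        intro h2
        exact hab (Prod.ext (by linarith) (by linarith))
      refine ⟨(c.2 - a.2) / (b.2 - a.2), ?_⟩
      rw [h1] at h
      have h3 : c.1 - a.1 = 0 := by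
        have h4 : (b.2 - a.2) * (c.1 - a.1) = 0 := by linarith
        exact (mul_eq_zero.1 h4).resolve_left h2
      refine Prod.ext ?_ ?_
      · simp only [Prod.fst_add, Prod.smul_fst, Prod.fst_sub, smul_eq_mul, h1, mul_zero]
        linarith
      · simp only [Prod.snd_add, Prod.smul_snd, Prod.snd_sub, smul_eq_mul]
        field_simp
        ring
    · refine ⟨(c.1 - a.1) / (b.1 - a.1), ?_⟩
      refine Prod.ext ?_ ?_
      · simp only [Prod.fst_add, Prod.smul_fst, Prod.fst_sub, smul_eq_mul]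
        field_simp
        ring
      · simp only [Prod.snd_add, Prod.smul_snd, Prod.snd_sub, smul_eq_mul]
        field_simp
        linarith
  intro q hq
  simp only [Set.mem_insert_iff, Set.mem_singleton_iff] at hq
  rcases hq with rfl | rfl | rfl
  · exact ⟨0, by simp⟩
  · exact ⟨1, by simp⟩
  · exact key

theorem ori_ne {N : ℕ} {p : Fin N → ℝ × ℝ} (hp : GenPos p) {i j k : Fin N} (h1 : i ≠ j)
    (h2 : j ≠ k) (h3 : i ≠ k) : ori (p i) (p j) (p k) ≠ 0 :=
  fun h => hp i j k h1 h2 h3 (collinear_of_ori _ _ _ h)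

theorem ori_comb (a b x y : ℝ × ℝ) (t : ℝ) :
    ori a b ((1 - t) • x + t • y) = (1 - t) * ori a b x + t * ori a b y := by
  unfold ori
  simp only [Prod.fst_add, Prod.smul_fst, Prod.snd_add, Prod.smul_snd, smul_eq_mul]
  ring

/-- a list of points, each visited from outside the hull of the later ones -/
def Good {N : ℕ} (p : Fin N → ℝ × ℝ) (c : Fin N → Fin 3) : Fin N → List (Fin N) → Prop
  | _, [] => True
  | v, a :: l => c v ≠ c a ∧ v ∉ a :: l ∧
      (∃ (b : Fin N) (s : ℝ), s * ori (p a) (p b) (p v) < 0 ∧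
        ∀ x ∈ l, 0 ≤ s * ori (p a) (p b) (p x)) ∧ Good p c a l

theorem good_nodup {N : ℕ} {p : Fin N → ℝ × ℝ} {c : Fin N → Fin 3} :
    ∀ (l : List (Fin N)) (v : Fin N), Good p c v l → (v :: l).Nodup
  | [], v, _ => by simp
  | a :: l, v, h => by
    obtain ⟨_, h2, _, h4⟩ := h
    exact List.nodup_cons.2 ⟨h2, good_nodup l a h4⟩

theorem good_alt {N : ℕ} {p : Fin N → ℝ × ℝ} {c : Fin N → Fin 3} (d : Fin N) :
    ∀ (l : List (Fin N)) (v : Fin N), Good p c v l → ∀ i, i < l.length →
      c ((v :: l).getD i d) ≠ c ((v :: l).getD (i + 1) d)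
  | [], v, _, i, hi => by simp at hi
  | a :: l, v, h, i, hi => by
    obtain ⟨h1, _, _, h4⟩ := h
    rcases i with _ | i
    · simpa using h1
    · have := good_alt d l a h4 i (by simpa using hi)
      simpa using this

theorem good_sep {N : ℕ} {p : Fin N → ℝ × ℝ} {c : Fin N → Fin 3} (d : Fin N) :
    ∀ (l : List (Fin N)) (v : Fin N), Good p c v l → ∀ i, i < l.length →
      ∃ (b : Fin N) (s : ℝ),
        s * ori (p ((v :: l).getD (i + 1) d)) (p b) (p ((v :: l).getD i d)) < 0 ∧
        ∀ j, i + 2 ≤ j → j ≤ l.length →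
          0 ≤ s * ori (p ((v :: l).getD (i + 1) d)) (p b) (p ((v :: l).getD j d))
  | [], v, _, i, hi => by simp at hi
  | a :: l, v, h, i, hi => by
    obtain ⟨_, _, ⟨b, s, h1, h2⟩, h4⟩ := h
    rcases i with _ | i
    · refine ⟨b, s, by simpa using h1, fun j hj1 hj2 => ?_⟩
      obtain ⟨j', rfl⟩ : ∃ j', j = j' + 2 := ⟨j - 2, by omega⟩
      have hj3 : j' < l.length := by simp at hj2; omega
      have h5 : (v :: a :: l).getD (j' + 2) d = l[j'] := by
        simp [hj3]
      rw [h5]
      simpa using h2 _ (List.getElem_mem hj3)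
    · obtain ⟨b', s', h5, h6⟩ := good_sep d l a h4 i (by simpa using hi)
      refine ⟨b', s', by simpa using h5, fun j hj1 hj2 => ?_⟩
      obtain ⟨j', rfl⟩ : ∃ j', j = j' + 1 := ⟨j - 1, by omega⟩
      have := h6 j' (by omega) (by simpa using hj2)
      simpa using this

/-- a good list is a simple alternating path -/
theorem good_path {N : ℕ} {p : Fin N → ℝ × ℝ} (hp : GenPos p) {c : Fin N → Fin 3}
    (v : Fin N) (l : List (Fin N)) (h : Good p c v l) :
    SimplePath p (l.length + 1) (fun i => (v :: l).getD i v) ∧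
      ∀ i, i + 1 < l.length + 1 → c ((v :: l).getD i v) ≠ c ((v :: l).getD (i + 1) v) := by
  obtain ⟨w, hw⟩ : ∃ w : ℕ → Fin N, w = fun i => (v :: l).getD i v := ⟨_, rfl⟩
  have hsep : ∀ i, i < l.length → ∃ (b : Fin N) (s : ℝ),
      s * ori (p (w (i + 1))) (p b) (p (w i)) < 0 ∧
        ∀ j, i + 2 ≤ j → j ≤ l.length → 0 ≤ s * ori (p (w (i + 1))) (p b) (p (w j)) := by
    rw [hw]
    exact good_sep v l v h
  have hinj : ∀ i < l.length + 1, ∀ j < l.length + 1, w i = w j → i = j := by
    intro i hi j hj hij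
    have hnd := good_nodup l v h
    rw [hw] at hij
    have hi' : i < (v :: l).length := by simpa using hi
    have hj' : j < (v :: l).length := by simpa using hj
    simp only [List.getD_eq_getElem (v :: l) v hi', List.getD_eq_getElem (v :: l) v hj'] at hij
    exact (List.Nodup.getElem_inj_iff hnd).1 hij
  -- the intersection with a later segment
  have hint : ∀ i j, i < l.length → i + 1 ≤ j → j + 1 ≤ l.length → ∀ z : ℝ × ℝ,
      z ∈ segment ℝ (p (w i)) (p (w (i + 1))) → z ∈ segment ℝ (p (w j)) (p (w (j + 1))) →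
      z = p (w (i + 1)) := by
    intro i j hi hij hj z hz1 hz2
    obtain ⟨b, s, h1, h2⟩ := hsep i hi
    rw [segment_eq_image] at hz1 hz2
    obtain ⟨t, ht, rfl⟩ := hz1
    obtain ⟨u, hu, hz⟩ := hz2
    dsimp only at hz ⊢
    have h3 : 0 ≤ s * ori (p (w (i + 1))) (p b) (p (w j)) := by
      rcases Nat.lt_or_ge (i + 1) j with h4 | h4
      · exact h2 j (by omega) (by omega)
      · have h5 : j = i + 1 := by omega
        rw [h5, ori_self', mul_zero]
    have h4 : 0 ≤ s * ori (p (w (i + 1))) (p b) (p (w (j + 1))) := h2 (j + 1) (by omega) hj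
    have h5 : 0 ≤ s * ori (p (w (i + 1))) (p b) ((1 - t) • p (w i) + t • p (w (i + 1))) := by
      rw [← hz, ori_comb]
      have h6 : 0 ≤ (1 - u) * (s * ori (p (w (i + 1))) (p b) (p (w j))) :=
        mul_nonneg (by linarith [hu.2]) h3
      have h7 : 0 ≤ u * (s * ori (p (w (i + 1))) (p b) (p (w (j + 1)))) :=
        mul_nonneg hu.1 h4
      nlinarith
    rw [ori_comb, ori_self', mul_zero, add_zero] at h5
    have h6 : t = 1 := by
      by_contra hne
      have h7 : 0 < 1 - t := by
        rcases lt_or_eq_of_le ht.2 with h8 | h8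
        · linarith
        · exact absurd h8 hne
      have h8 : (1 - t) * (s * ori (p (w (i + 1))) (p b) (p (w i))) < 0 :=
        mul_neg_of_pos_of_neg h7 h1
      nlinarith
    rw [h6]
    simp
  refine ⟨?_, ?_⟩
  · have : SimplePath p (l.length + 1) w := by
      refine ⟨hinj, ?_, ?_⟩
      · intro i j hij hj
        rw [Set.disjoint_left]
        intro z hz1 hz2
        have h1 := hint i j (by omega) (by omega) (by omega) z hz1 hz2
        rw [h1, segment_eq_image] at hz2
        obtain ⟨u, hu, hz⟩ := hz2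
        have h2 : w j ≠ w (j + 1) := fun h3 => by
          have := hinj _ (by omega) _ (by omega) h3
          omega
        have h3 : w (j + 1) ≠ w (i + 1) := fun h3 => by
          have := hinj _ (by omega) _ (by omega) h3
          omega
        have h4 : w j ≠ w (i + 1) := fun h3 => by
          have := hinj _ (by omega) _ (by omega) h3
          omega
        apply ori_ne hp h2 h3 h4
        rw [← hz]
        dsimp only
        rw [ori_comb, ori_self, ori_self']
        ring
      · intro i hi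
        ext z
        constructor
        · rintro ⟨hz1, hz2⟩
          exact hint i (i + 1) (by omega) le_rfl (by omega) z hz1 hz2
        · intro hz
          rw [Set.mem_singleton_iff] at hz
          rw [hz]
          exact ⟨right_mem_segment ℝ _ _, left_mem_segment ℝ _ _⟩
    rw [hw] at this
    exact this
  · exact fun i hi => good_alt v l v h i (by omega)

/-- `ab` is a hull edge of `S`, seen from `v` -/
def Edge {N : ℕ} (p : Fin N → ℝ × ℝ) (S : Finset (Fin N)) (a b v : Fin N) : Prop :=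
  ∃ s : ℝ, s * ori (p a) (p b) (p v) < 0 ∧
    ∀ x ∈ S, x ≠ a → x ≠ b → 0 < s * ori (p a) (p b) (p x)

theorem Edge.symm {N : ℕ} {p : Fin N → ℝ × ℝ} {S : Finset (Fin N)} {a b v : Fin N}
    (h : Edge p S a b v) : Edge p S b a v := by
  obtain ⟨s, h1, h2⟩ := h
  refine ⟨-s, ?_, fun x hx hxb hxa => ?_⟩
  · rw [ori_swap]; linarith
  · rw [ori_swap]
    have := h2 x hx hxa hxb
    linarith

/-- the first point in angular order -/
theorem first {N : ℕ} {p : Fin N → ℝ × ℝ} (hp : GenPos p) (A : ℝ × ℝ) (b : Fin N)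
    (U : Finset (Fin N)) (hU : U.Nonempty) (hb : b ∉ U) (s : ℝ)
    (hs : ∀ x ∈ U, 0 < s * ori A (p b) (p x)) :
    ∃ w ∈ U, ∀ x ∈ U, x ≠ w → 0 < s * ori (p w) (p b) (p x) := by
  obtain ⟨w, hw, hmax⟩ := exists_max_image U
    (fun x => (((p x).1 - (p b).1) * (A.1 - (p b).1) + ((p x).2 - (p b).2) * (A.2 - (p b).2)) /
      (s * ori A (p b) (p x))) hU
  refine ⟨w, hw, fun x hx hxw => ?_⟩
  have h1 := hmax x hx
  have h2 := hs x hx
  have h3 := hs w hw
  have hbx : b ≠ x := fun h => hb (h ▸ hx)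
  have hbw : b ≠ w := fun h => hb (h ▸ hw)
  have hne : ori (p w) (p b) (p x) ≠ 0 := ori_ne hp hbw.symm hbx (Ne.symm hxw)
  rw [div_le_div_iff₀ h2 h3] at h1
  have hid : (((p w).1 - (p b).1) * (A.1 - (p b).1) + ((p w).2 - (p b).2) * (A.2 - (p b).2)) *
      (s * ori A (p b) (p x)) -
      (((p x).1 - (p b).1) * (A.1 - (p b).1) + ((p x).2 - (p b).2) * (A.2 - (p b).2)) *
      (s * ori A (p b) (p w)) =
      ((A.1 - (p b).1) ^ 2 + (A.2 - (p b).2) ^ 2) * (s * ori (p w) (p b) (p x)) := by
    unfold ori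
    ring
  have h4 : 0 ≤ ((A.1 - (p b).1) ^ 2 + (A.2 - (p b).2) ^ 2) * (s * ori (p w) (p b) (p x)) := by
    rw [← hid]
    linarith
  have h5 : 0 < (A.1 - (p b).1) ^ 2 + (A.2 - (p b).2) ^ 2 := by
    by_contra hle
    have h6 : A.1 - (p b).1 = 0 := by nlinarith [sq_nonneg (A.1 - (p b).1), sq_nonneg (A.2 - (p b).2)]
    have h7 : A.2 - (p b).2 = 0 := by nlinarith [sq_nonneg (A.1 - (p b).1), sq_nonneg (A.2 - (p b).2)]
    have h8 : ori A (p b) (p x) = 0 := by
      unfold ori
      have e1 : (p b).1 - A.1 = 0 := by linarith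
      have e2 : (p b).2 - A.2 = 0 := by linarith
      rw [e1, e2]
      ring
    rw [h8, mul_zero] at h2
    exact lt_irrefl _ h2
  have h6 : 0 ≤ s * ori (p w) (p b) (p x) := by
    by_contra hlt
    rw [not_le] at hlt
    have := mul_neg_of_pos_of_neg h5 hlt
    linarith
  have hs0 : s ≠ 0 := by
    rintro rfl
    rw [zero_mul] at h2
    exact lt_irrefl _ h2
  exact lt_of_le_of_ne h6 (Ne.symm (mul_ne_zero hs0 hne))

/-- the end `a` is visited -/
theorem edge_visit {N : ℕ} {p : Fin N → ℝ × ℝ} (hp : GenPos p) {U : Finset (Fin N)}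
    {a b v : Fin N} (hU : U.Nonempty) (ha : a ∉ U) (hb : b ∉ U)
    (h : Edge p (insert a (insert b U)) a b v) :
    ∃ w ∈ U, Edge p (insert b U) b w a := by
  obtain ⟨s, h1, h2⟩ := h
  have h3 : ∀ x ∈ U, 0 < s * ori (p a) (p b) (p x) := fun x hx =>
    h2 x (by simp [hx]) (fun h => ha (h ▸ hx)) (fun h => hb (h ▸ hx))
  obtain ⟨w, hw, h4⟩ := first hp (p a) b U hU hb s h3
  refine ⟨w, hw, -s, ?_, fun x hx hxb hxw => ?_⟩
  · have h5 := h3 w hw
    have h6 : ori (p b) (p w) (p a) = ori (p a) (p b) (p w) := ori_rot _ _ _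
    rw [h6]
    linarith
  · have hxU : x ∈ U := by
      rw [mem_insert] at hx
      exact hx.resolve_left hxb
    have h5 := h4 x hxU hxw
    rw [ori_swap]
    linarith

/-- the end `a` is discarded -/
theorem edge_skip {N : ℕ} {p : Fin N → ℝ × ℝ} (hp : GenPos p) {U : Finset (Fin N)}
    {a b v : Fin N} (hU : U.Nonempty) (ha : a ∉ U) (hb : b ∉ U) (hv : v ∉ U) (hvb : v ≠ b)
    (h : Edge p (insert a (insert b U)) a b v) :
    ∃ w ∈ U, Edge p (insert b U) b w v := by
  obtain ⟨s, h1, h2⟩ := h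
  have h3 : ∀ x ∈ U, 0 < s * ori (p a) (p b) (p x) := fun x hx =>
    h2 x (by simp [hx]) (fun h => ha (h ▸ hx)) (fun h => hb (h ▸ hx))
  obtain ⟨w, hw, h4⟩ := first hp (p a) b U hU hb s h3
  have hs0 : s ≠ 0 := by
    rintro rfl
    rw [zero_mul] at h1
    exact lt_irrefl _ h1
  have hwb : w ≠ b := fun h => hb (h ▸ hw)
  have hwv : w ≠ v := fun h => hv (h ▸ hw)
  have hne : ori (p w) (p b) (p v) ≠ 0 := ori_ne hp hwb (Ne.symm hvb) hwv
  rcases lt_or_ge (s * ori (p w) (p b) (p v)) 0 with h5 | h5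
  · refine ⟨w, hw, -s, ?_, fun x hx hxb hxw => ?_⟩
    · rw [ori_swap]
      linarith
    · have hxU : x ∈ U := by
        rw [mem_insert] at hx
        exact hx.resolve_left hxb
      have h6 := h4 x hxU hxw
      rw [ori_swap]
      linarith
  have h5' : 0 < s * ori (p w) (p b) (p v) := lt_of_le_of_ne h5 (Ne.symm (mul_ne_zero hs0 hne))
  -- the last point in angular order: the first one for the reflected direction
  obtain ⟨A, hA⟩ : ∃ A : ℝ × ℝ, A = ((p b).1 + ((p b).1 - (p a).1), (p b).2 + ((p b).2 - (p a).2)) :=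
    ⟨_, rfl⟩
  have h6 : ∀ x ∈ U, 0 < -s * ori A (p b) (p x) := by
    intro x hx
    have h7 := h3 x hx
    have h8 : ori A (p b) (p x) = - ori (p a) (p b) (p x) := by
      rw [hA]
      unfold ori
      dsimp only
      ring
    rw [h8]
    linarith
  obtain ⟨w2, hw2, h7⟩ := first hp A b U hU hb (-s) h6
  refine ⟨w2, hw2, s, ?_, fun x hx hxb hxw => ?_⟩
  · by_contra hcon
    rw [not_lt] at hcon
    have ha1 := h3 w hw
    have ha2 := h3 w2 hw2
    by_cases hww : w2 = w
    · rw [hww, ori_swap] at hcon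
      linarith
    · have h8 := h4 w2 hw2 hww
      -- Pluecker relation
      have hid : (s * ori (p a) (p b) (p v)) * (s * ori (p w) (p b) (p w2)) =
          (s * ori (p a) (p b) (p w2)) * (s * ori (p w) (p b) (p v)) +
          (s * ori (p a) (p b) (p w)) * (s * ori (p b) (p w2) (p v)) := by
        unfold ori
        ring
      have h9 : (s * ori (p a) (p b) (p v)) * (s * ori (p w) (p b) (p w2)) < 0 :=
        mul_neg_of_neg_of_pos h1 h8
      have h10 : 0 < (s * ori (p a) (p b) (p w2)) * (s * ori (p w) (p b) (p v)) :=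
        mul_pos ha2 h5'
      have h11 : 0 ≤ (s * ori (p a) (p b) (p w)) * (s * ori (p b) (p w2) (p v)) :=
        mul_nonneg ha1.le hcon
      linarith
  · have hxU : x ∈ U := by
      rw [mem_insert] at hx
      exact hx.resolve_left hxb
    have h8 := h7 x hxU hxw
    rw [ori_swap] at h8
    linarith

/-- the start -/
theorem start {N : ℕ} {p : Fin N → ℝ × ℝ} (hp : GenPos p) (hinj : Function.Injective p)
    (hN : 3 ≤ N) : ∃ v a b : Fin N, v ≠ a ∧ v ≠ b ∧ a ≠ b ∧
      Edge p (insert a (insert b (((univ.erase v).erase a).erase b))) a b v := by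
  have hne : (univ : Finset (Fin N)).Nonempty := ⟨⟨0, by omega⟩, mem_univ _⟩
  obtain ⟨b, _, hb⟩ := exists_max_image univ (fun i => (p i).1 ^ 2 + (p i).2 ^ 2) hne
  obtain ⟨A, hA⟩ : ∃ A : ℝ × ℝ, A = ((p b).1 - (p b).2, (p b).2 + (p b).1) := ⟨_, rfl⟩
  have h1 : ∀ x ∈ univ.erase b, 0 < (-1) * ori A (p b) (p x) := by
    intro x hx
    have hxb : x ≠ b := ne_of_mem_erase hx
    have h2 := hb x (mem_univ x)
    have h3 : 0 < ((p x).1 - (p b).1) ^ 2 + ((p x).2 - (p b).2) ^ 2 := by
      by_contra hle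
      have h6 : (p x).1 - (p b).1 = 0 := by
        nlinarith [sq_nonneg ((p x).1 - (p b).1), sq_nonneg ((p x).2 - (p b).2)]
      have h7 : (p x).2 - (p b).2 = 0 := by
        nlinarith [sq_nonneg ((p x).1 - (p b).1), sq_nonneg ((p x).2 - (p b).2)]
      exact hxb (hinj (Prod.ext (by linarith) (by linarith)))
    rw [hA]
    unfold ori
    dsimp only at h2 ⊢
    nlinarith
  have hcard : (univ : Finset (Fin N)).card = N := by simp
  have hne2 : (univ.erase b : Finset (Fin N)).Nonempty := by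
    rw [← card_pos, card_erase_of_mem (mem_univ _), hcard]
    omega
  obtain ⟨v, hv, h2⟩ := first hp A b _ hne2 (notMem_erase b _) (-1) h1
  have hvb : v ≠ b := ne_of_mem_erase hv
  have hU : ((univ.erase b).erase v : Finset (Fin N)).Nonempty := by
    rw [← card_pos, card_erase_of_mem hv, card_erase_of_mem (mem_univ _), hcard]
    omega
  have h3 : ∀ x ∈ (univ.erase b).erase v, 0 < (-1) * ori (p v) (p b) (p x) := fun x hx =>
    h2 x (mem_of_mem_erase hx) (ne_of_mem_erase hx)
  obtain ⟨w, hw, h4⟩ := first hp (p v) b _ hU (fun h => by simp at h) (-1) h3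
  have hwv : w ≠ v := ne_of_mem_erase hw
  have hwb : w ≠ b := ne_of_mem_erase (mem_of_mem_erase hw)
  refine ⟨v, b, w, hvb, hwv.symm, hwb.symm, 1, ?_, fun x hx hxb hxw => ?_⟩
  · have h5 := h3 w hw
    have h6 : ori (p b) (p w) (p v) = ori (p v) (p b) (p w) := ori_rot _ _ _
    rw [h6]
    linarith
  · have hxv : x ≠ v := by
      rintro rfl
      simp only [mem_insert, mem_erase, mem_univ] at hx
      rcases hx with h | h | h
      · exact hxb h
      · exact hxw h
      · exact h.2.2.1 rfl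
    have h5 := h4 x (by simp [hxv, hxb]) hxw
    rw [ori_swap] at h5
    linarith

end Pool.Agent.H24.AP
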