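import Pool.Agent.H24.AP.Geo

/-!
# Alternating paths: two sets separated by a line, and a path with `(4n+2)/3` vertices in general position

`bridge`: the lowest bridge of two separated sets. `sep_path`: a good list alternating between the sets.
`general`: cut off `2n` (or `2n+1`) points by a line, keep the most frequent colour there and the two other colours on
the other side.
-/

set_option autoImplicit false

namespace Pool.Agent.H24.AP

open Finset

/-- the height at which the line through `a` and `b` meets the vertical line at `θ` -/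
noncomputable def hgt (θ : ℝ) (a b : ℝ × ℝ) : ℝ := a.2 + (b.2 - a.2) * (θ - a.1) / (b.1 - a.1)

theorem hgt_id (θ : ℝ) (a b a' b' : ℝ × ℝ) (h : b.1 - a.1 ≠ 0) (h' : b'.1 - a'.1 ≠ 0) :
    (b.1 - a.1) * (hgt θ a' b' - hgt θ a b) * (b'.1 - a'.1) =
      (b'.1 - θ) * ori a b a' + (θ - a'.1) * ori a b b' := by
  unfold hgt ori
  field_simp
  ring

/-- comparing heights: `a, a'` on one side, `b, b'` on the other side of the line at `θ` -/
theorem hgt_lt (θ σ : ℝ) (a b a' b' : ℝ × ℝ) (ha : σ * (a.1 - θ) < 0)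
    (hb : 0 < σ * (b.1 - θ)) (ha' : σ * (a'.1 - θ) < 0) (hb' : 0 < σ * (b'.1 - θ))
    (h1 : 0 ≤ σ * ori a b a') (h2 : 0 ≤ σ * ori a b b')
    (h3 : 0 < σ * ori a b a' ∨ 0 < σ * ori a b b') : hgt θ a b < hgt θ a' b' := by
  have e1 : 0 < σ * (b.1 - a.1) := by linarith
  have e2 : 0 < σ * (b'.1 - a'.1) := by linarith
  have n1 : b.1 - a.1 ≠ 0 := fun h => by rw [h, mul_zero] at e1; exact lt_irrefl _ e1
  have n2 : b'.1 - a'.1 ≠ 0 := fun h => by rw [h, mul_zero] at e2; exact lt_irrefl _ e2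
  have hid := hgt_id θ a b a' b' n1 n2
  have h4 : 0 < (σ * (b'.1 - θ)) * (σ * ori a b a') + (-(σ * (a'.1 - θ))) * (σ * ori a b b') := by
    rcases h3 with h3 | h3
    · have := mul_pos hb' h3
      have := mul_nonneg (by linarith : 0 ≤ -(σ * (a'.1 - θ))) h2
      linarith
    · have := mul_nonneg hb'.le h1
      have := mul_pos (by linarith : 0 < -(σ * (a'.1 - θ))) h3
      linarith
  have h5 : (σ * (b.1 - a.1)) * (σ * (b'.1 - a'.1)) * (hgt θ a' b' - hgt θ a b) =
      (σ * (b'.1 - θ)) * (σ * ori a b a') + (-(σ * (a'.1 - θ))) * (σ * ori a b b') := by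
    have : (σ * (b.1 - a.1)) * (σ * (b'.1 - a'.1)) * (hgt θ a' b' - hgt θ a b) =
        σ ^ 2 * ((b.1 - a.1) * (hgt θ a' b' - hgt θ a b) * (b'.1 - a'.1)) := by ring
    rw [this, hid]
    ring
  rw [← h5] at h4
  have h6 := mul_pos e1 e2
  have h7 : 0 < hgt θ a' b' - hgt θ a b := by
    by_contra hle
    rw [not_lt] at hle
    have := mul_nonpos_of_nonneg_of_nonpos h6.le hle
    linarith
  linarith

/-- `(l, r)` is the lowest bridge of `X` and `Y` -/
def Bridge {N : ℕ} (p : Fin N → ℝ × ℝ) (σ : ℝ) (X Y : Finset (Fin N)) (l r : Fin N) : Prop :=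
  l ∈ X ∧ r ∈ Y ∧ ∀ x, x ∈ X ∨ x ∈ Y → x ≠ l → x ≠ r → 0 < σ * ori (p l) (p r) (p x)

theorem bridge {N : ℕ} {p : Fin N → ℝ × ℝ} (hp : GenPos p) (θ σ : ℝ) (hσ : σ ≠ 0)
    (X Y : Finset (Fin N)) (hX : ∀ x ∈ X, σ * ((p x).1 - θ) < 0)
    (hY : ∀ y ∈ Y, 0 < σ * ((p y).1 - θ)) (hXn : X.Nonempty) (hYn : Y.Nonempty) :
    ∃ l r, Bridge p σ X Y l r := by
  obtain ⟨⟨l, r⟩, hlr, hmin⟩ := exists_min_image (X ×ˢ Y) (fun q => hgt θ (p q.1) (p q.2))
    (hXn.product hYn)
  rw [mem_product] at hlr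
  obtain ⟨hl, hr⟩ := hlr
  dsimp only at hl hr hmin
  have hlr' : l ≠ r := by
    intro h
    have h1 := hX l hl
    have h2 := hY r hr
    rw [← h] at h2
    linarith
  refine ⟨l, r, hl, hr, fun x hx hxl hxr => ?_⟩
  have hne : σ * ori (p l) (p r) (p x) ≠ 0 :=
    mul_ne_zero hσ (ori_ne hp hlr' (Ne.symm hxr) (Ne.symm hxl))
  by_contra hle
  rw [not_lt] at hle
  have hlt : σ * ori (p l) (p r) (p x) < 0 := lt_of_le_of_ne hle hne
  rcases hx with hx | hx
  · have h1 := hmin (x, r) (mem_product.2 ⟨hx, hr⟩)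
    dsimp only at h1
    have h2 : σ * ori (p x) (p r) (p l) = - (σ * ori (p l) (p r) (p x)) := by
      unfold ori; ring
    have h3 : σ * ori (p x) (p r) (p r) = 0 := by rw [ori_self, mul_zero]
    have := hgt_lt θ σ (p x) (p r) (p l) (p r) (hX x hx) (hY r hr) (hX l hl) (hY r hr)
      (by linarith) (by linarith) (Or.inl (by linarith))
    linarith
  · have h1 := hmin (l, x) (mem_product.2 ⟨hl, hx⟩)
    dsimp only at h1
    have h2 : σ * ori (p l) (p x) (p r) = - (σ * ori (p l) (p r) (p x)) := by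
      unfold ori; ring
    have h3 : σ * ori (p l) (p x) (p l) = 0 := by rw [ori_self', mul_zero]
    have := hgt_lt θ σ (p l) (p x) (p l) (p r) (hX l hl) (hY x hx) (hX l hl) (hY r hr)
      (by linarith) (by linarith) (Or.inr (by linarith))
    linarith

/-- the next bridge is seen from the removed end -/
theorem bridge_step {N : ℕ} {p : Fin N → ℝ × ℝ} (hp : GenPos p) (θ σ : ℝ) (hσ : σ ≠ 0)
    (X Y : Finset (Fin N)) (hX : ∀ x ∈ X, σ * ((p x).1 - θ) < 0)
    (hY : ∀ y ∈ Y, 0 < σ * ((p y).1 - θ)) (l r : Fin N) (hb : Bridge p σ X Y l r)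
    (hX' : (X.erase l).Nonempty) :
    ∃ l' r', Bridge p σ (X.erase l) Y l' r' ∧ σ * ori (p l') (p r') (p l) < 0 := by
  obtain ⟨hl, hr, hb3⟩ := hb
  obtain ⟨l', r', hb'⟩ := bridge hp θ σ hσ (X.erase l) Y
    (fun x hx => hX x (mem_of_mem_erase hx)) hY hX' ⟨r, hr⟩
  refine ⟨l', r', hb', ?_⟩
  obtain ⟨hl', hr', hb3'⟩ := hb'
  have hl'X := mem_of_mem_erase hl'
  have hll : l' ≠ l := ne_of_mem_erase hl'
  have hXY : ∀ x ∈ X, ∀ y ∈ Y, x ≠ y := by
    intro x hx y hy h
    have h1 := hX x hx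
    have h2 := hY y hy
    rw [← h] at h2
    linarith
  have hne : σ * ori (p l') (p r') (p l) ≠ 0 :=
    mul_ne_zero hσ (ori_ne hp (hXY _ hl'X _ hr') (hXY _ hl _ hr').symm hll)
  by_contra hle
  rw [not_lt] at hle
  have hpos : 0 < σ * ori (p l') (p r') (p l) := lt_of_le_of_ne hle (Ne.symm hne)
  -- both are lowest
  have h1 : 0 < σ * ori (p l) (p r) (p l') := hb3 l' (Or.inl hl'X) hll (hXY _ hl'X _ hr)
  have h2 : 0 ≤ σ * ori (p l) (p r) (p r') := by
    by_cases h : r' = r
    · rw [h, ori_self, mul_zero]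
    · exact (hb3 r' (Or.inr hr') (hXY _ hl _ hr').symm h).le
  have h3 : 0 ≤ σ * ori (p l') (p r') (p r) := by
    by_cases h : r = r'
    · rw [h, ori_self, mul_zero]
    · exact (hb3' r (Or.inr hr) (hXY _ hl'X _ hr).symm h).le
  have h4 := hgt_lt θ σ (p l) (p r) (p l') (p r') (hX l hl) (hY r hr) (hX l' hl'X) (hY r' hr')
    h1.le h2 (Or.inl h1)
  have h5 := hgt_lt θ σ (p l') (p r') (p l) (p r) (hX l' hl'X) (hY r' hr') (hX l hl) (hY r hr)
    hpos.le h3 (Or.inl hpos)
  linarith

theorem sep_list {N : ℕ} (hN : 3 ≤ N) {p : Fin N → ℝ × ℝ} (hp : GenPos p) (θ : ℝ)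
    (c : Fin N → Fin 3) : ∀ (m : ℕ) (σ : ℝ) (_ : σ ≠ 0) (X Y : Finset (Fin N)) (l r : Fin N),
    X.card + Y.card = m → (X.card = Y.card ∨ X.card = Y.card + 1) →
    (∀ x ∈ X, σ * ((p x).1 - θ) < 0) → (∀ y ∈ Y, 0 < σ * ((p y).1 - θ)) →
    (∀ x ∈ X, ∀ y ∈ Y, c x ≠ c y) → Bridge p σ X Y l r →
    ∃ L : List (Fin N), L.length + 1 = m ∧ Good p c l L ∧
      ∀ x ∈ L, x ∈ X.erase l ∨ x ∈ Y := by
  intro m
  induction m with
  | zero =>
    intro σ _ X Y l r hm _ _ _ _ hb
    have : 0 < X.card := card_pos.2 ⟨l, hb.1⟩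
    omega
  | succ m ih =>
    intro σ hσ X Y l r hm hcard hX hY hc hb
    have hXY : ∀ x ∈ X, ∀ y ∈ Y, x ≠ y := by
      intro x hx y hy h
      have h1 := hX x hx
      have h2 := hY y hy
      rw [← h] at h2
      linarith
    have hcl : (X.erase l).card = X.card - 1 := card_erase_of_mem hb.1
    have hX0 : 0 < X.card := card_pos.2 ⟨l, hb.1⟩
    have hY0 : 0 < Y.card := card_pos.2 ⟨r, hb.2.1⟩
    by_cases hX' : (X.erase l).Nonempty
    · obtain ⟨l', r', hb', hs⟩ := bridge_step hp θ σ hσ X Y hX hY l r hb hX'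
      have hX'0 : 0 < (X.erase l).card := card_pos.2 hX'
      have hb'' : Bridge p (-σ) Y (X.erase l) r' l' := by
        refine ⟨hb'.2.1, hb'.1, fun x hx h1 h2 => ?_⟩
        have := hb'.2.2 x hx.symm h2 h1
        rw [ori_swap]
        linarith
      obtain ⟨L, h1, h2, h3⟩ := ih (-σ) (neg_ne_zero.2 hσ) Y (X.erase l) r' l' (by omega)
        (by omega) (fun y hy => by have := hY y hy; linarith)
        (fun x hx => by have := hX x (mem_of_mem_erase hx); linarith)
        (fun y hy x hx => (hc x (mem_of_mem_erase hx) y hy).symm) hb''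
      have h4 : ∀ x ∈ L, x ∈ X.erase l ∨ x ∈ Y := by
        intro x hx
        rcases h3 x hx with h | h
        · exact Or.inr (mem_of_mem_erase h)
        · exact Or.inl h
      refine ⟨r' :: L, by rw [List.length_cons]; omega, ⟨hc l hb.1 r' hb'.2.1, ?_, ?_, h2⟩, ?_⟩
      · intro hmem
        rw [List.mem_cons] at hmem
        rcases hmem with h | h
        · exact hXY l hb.1 r' hb'.2.1 h
        · rcases h4 l h with h5 | h5
          · exact notMem_erase l X h5
          · exact hXY l hb.1 l h5 rfl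
      · refine ⟨l', -σ, ?_, fun x hx => ?_⟩
        · rw [ori_swap]
          linarith
        · rw [ori_swap]
          by_cases h5 : x = l'
          · rw [h5, ori_self']
            simp
          · by_cases h6 : x = r'
            · rw [h6, ori_self]
              simp
            · have := hb'.2.2 x (h4 x hx) h5 h6
              linarith
      · intro x hx
        rw [List.mem_cons] at hx
        rcases hx with h | h
        · rw [h]
          exact Or.inr hb'.2.1
        · exact h4 x h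
    · have h1 : (X.erase l).card = 0 := by
        rw [card_eq_zero]
        exact not_nonempty_iff_eq_empty.1 hX'
      have h2 : m = 1 := by omega
      have hlr : l ≠ r := hXY l hb.1 r hb.2.1
      refine ⟨[r], by simp [h2], ⟨hc l hb.1 r hb.2.1, by simp [hlr], ?_, trivial⟩, ?_⟩
      · have hex : ∃ b : Fin N, b ≠ l ∧ b ≠ r := by
          have : (univ \ {l, r} : Finset (Fin N)).Nonempty := by
            rw [← card_pos, card_sdiff_of_subset (subset_univ _), card_univ, Fintype.card_fin]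
            have := card_le_two (a := l) (b := r)
            omega
          obtain ⟨b, hb⟩ := this
          simp only [mem_sdiff, mem_univ, mem_insert, mem_singleton, true_and, not_or] at hb
          exact ⟨b, hb.1, hb.2⟩
        obtain ⟨b, hbl, hbr⟩ := hex
        have hne := ori_ne hp (Ne.symm hbr) hbl hlr.symm
        refine ⟨b, -ori (p r) (p b) (p l), ?_, by simp⟩
        have : 0 < ori (p r) (p b) (p l) * ori (p r) (p b) (p l) := mul_self_pos.2 hne
        linarith
      · intro x hx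
        rw [List.mem_singleton] at hx
        rw [hx]
        exact Or.inr hb.2.1

theorem good_congr {N : ℕ} {p p' : Fin N → ℝ × ℝ} {c : Fin N → Fin 3}
    (h : ∀ a b x, ori (p' a) (p' b) (p' x) = ori (p a) (p b) (p x)) :
    ∀ (l : List (Fin N)) (v : Fin N), Good p' c v l → Good p c v l
  | [], _, _ => trivial
  | a :: l, v, h1 => by
    obtain ⟨h2, h3, ⟨b, s, h4, h5⟩, h6⟩ := h1
    refine ⟨h2, h3, ⟨b, s, ?_, fun x hx => ?_⟩, good_congr h l a h6⟩
    · rw [← h]; exact h4
    · rw [← h]; exact h5 x hx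

/-- cutting off `k` points -/
theorem cut {N : ℕ} (g : Fin N → ℝ) (hg : Function.Injective g) (k : ℕ) (hk : k ≤ N) :
    ∃ L : Finset (Fin N), L.card = k ∧ ∀ x ∈ L, ∀ y, y ∉ L → g x < g y := by
  induction k with
  | zero => exact ⟨∅, rfl, by simp⟩
  | succ k ih =>
    obtain ⟨L, h1, h2⟩ := ih (by omega)
    have hne : (univ \ L).Nonempty := by
      rw [← card_pos, card_sdiff_of_subset (subset_univ _), card_univ, Fintype.card_fin]
      omega
    obtain ⟨w, hw, hmin⟩ := exists_min_image (univ \ L) g hne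
    have hwL : w ∉ L := (mem_sdiff.1 hw).2
    refine ⟨insert w L, by rw [card_insert_of_notMem hwL, h1], fun x hx y hy => ?_⟩
    rw [mem_insert, not_or] at hy
    rw [mem_insert] at hx
    rcases hx with rfl | hx
    · have h3 := hmin y (by simp [hy.2])
      exact lt_of_le_of_ne h3 (fun h => hy.1 (hg h).symm)
    · exact h2 x hx y hy.2

/-- a direction in which all values are different -/
theorem direction {N : ℕ} (p : Fin N → ℝ × ℝ) (hinj : Function.Injective p) :
    ∃ δ : ℝ, Function.Injective (fun i => (p i).1 + δ * (p i).2) := by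
  obtain ⟨B, hB⟩ : ∃ B : Finset ℝ, B = univ.image (fun ij : Fin N × Fin N =>
    ((p ij.2).1 - (p ij.1).1) / ((p ij.1).2 - (p ij.2).2)) := ⟨_, rfl⟩
  obtain ⟨δ, hδ⟩ := Infinite.exists_notMem_finset (α := ℝ) B
  refine ⟨δ, fun i j hij => ?_⟩
  by_contra hne
  dsimp only at hij
  by_cases h1 : (p i).2 = (p j).2
  · rw [h1] at hij
    exact hne (hinj (Prod.ext (by linarith) h1))
  · apply hδ
    rw [hB, mem_image]
    refine ⟨(i, j), mem_univ _, ?_⟩
    dsimp only
    rw [div_eq_iff (sub_ne_zero.2 h1)]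
    linarith

/-- one line, one colour on its left side, the two other colours on its right side -/
theorem one_cut {N : ℕ} (hN : 3 ≤ N) {p : Fin N → ℝ × ℝ} (hp : GenPos p)
    (hinj : Function.Injective p) (c : Fin N → Fin 3) (k : ℕ) (hk : k ≤ N) :
    ∃ L : Finset (Fin N), L.card = k ∧ ∀ i : Fin 3,
      ((L.filter (fun x => c x = i)).card = ((univ \ L).filter (fun x => c x ≠ i)).card ∨
        (L.filter (fun x => c x = i)).card = ((univ \ L).filter (fun x => c x ≠ i)).card + 1) →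
      1 ≤ ((univ \ L).filter (fun x => c x ≠ i)).card →
      ∃ (m : ℕ) (v : ℕ → Fin N), m = (L.filter (fun x => c x = i)).card +
        ((univ \ L).filter (fun x => c x ≠ i)).card ∧ SimplePath p m v ∧
        ∀ i, i + 1 < m → c (v i) ≠ c (v (i + 1)) := by
  obtain ⟨δ, hδ⟩ := direction p hinj
  obtain ⟨L, hL1, hL2⟩ := cut _ hδ k hk
  refine ⟨L, hL1, fun i hcard hpos => ?_⟩
  obtain ⟨X, hX⟩ : ∃ X : Finset (Fin N), X = L.filter (fun x => c x = i) := ⟨_, rfl⟩
  obtain ⟨Y, hY⟩ : ∃ Y : Finset (Fin N), Y = (univ \ L).filter (fun x => c x ≠ i) := ⟨_, rfl⟩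
  rw [← hX, ← hY] at hcard ⊢
  rw [← hY] at hpos
  have hYn : Y.Nonempty := card_pos.1 (by omega)
  have hXn : X.Nonempty := card_pos.1 (by omega)
  obtain ⟨p', hp'⟩ : ∃ p' : Fin N → ℝ × ℝ, p' = fun i => ((p i).1 + δ * (p i).2, (p i).2) :=
    ⟨_, rfl⟩
  have hori : ∀ a b x, ori (p' a) (p' b) (p' x) = ori (p a) (p b) (p x) := by
    intro a b x
    rw [hp']
    unfold ori
    dsimp only
    ring
  have hgp' : GenPos p' := by
    intro a b x h1 h2 h3 hcol
    apply ori_ne hp h1 h2 h3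
    rw [← hori]
    by_contra hne
    apply hne
    obtain ⟨v, hv⟩ := (collinear_iff_of_mem (p₀ := p' a) (by simp)).1 hcol
    obtain ⟨r1, hr1⟩ := hv (p' b) (by simp)
    obtain ⟨r2, hr2⟩ := hv (p' x) (by simp)
    rw [hr1, hr2]
    unfold ori
    simp only [vadd_eq_add, Prod.fst_add, Prod.smul_fst, Prod.snd_add, Prod.smul_snd, smul_eq_mul]
    ring
  -- the cut value
  obtain ⟨x1, hx1, hmax⟩ := exists_max_image X (fun i => (p' i).1) hXn
  obtain ⟨y1, hy1, hmin⟩ := exists_min_image Y (fun i => (p' i).1) hYn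
  have hXL : ∀ x ∈ X, x ∈ L := fun x hx => by rw [hX] at hx; exact (mem_filter.1 hx).1
  have hYL : ∀ y ∈ Y, y ∉ L := fun y hy => by
    rw [hY] at hy
    exact (mem_sdiff.1 (mem_filter.1 hy).1).2
  have hlt : (p' x1).1 < (p' y1).1 := by
    rw [hp']
    exact hL2 x1 (hXL x1 hx1) y1 (hYL y1 hy1)
  obtain ⟨θ, hθ⟩ : ∃ θ : ℝ, θ = ((p' x1).1 + (p' y1).1) / 2 := ⟨_, rfl⟩
  have hXθ : ∀ x ∈ X, (1 : ℝ) * ((p' x).1 - θ) < 0 := by
    intro x hx
    have := hmax x hx
    rw [hθ]
    linarith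
  have hYθ : ∀ y ∈ Y, 0 < (1 : ℝ) * ((p' y).1 - θ) := by
    intro y hy
    have := hmin y hy
    rw [hθ]
    linarith
  obtain ⟨l, r, hb⟩ := bridge hgp' θ 1 one_ne_zero X Y hXθ hYθ hXn hYn
  obtain ⟨M, h1, h2, _⟩ := sep_list hN hgp' θ c (X.card + Y.card) 1 one_ne_zero X Y l r rfl hcard
    hXθ hYθ (fun x hx y hy => by
      rw [hX, mem_filter] at hx
      rw [hY, mem_filter] at hy
      rw [hx.2]
      exact Ne.symm hy.2) hb
  obtain ⟨h3, h4⟩ := good_path hp l M (good_congr hori M l h2)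
  exact ⟨M.length + 1, _, h1, h3, h4⟩

/-- general position: at least `(4n+2)/3` vertices -/
theorem general (n : ℕ) (hn : 1 ≤ n) {p : Fin (3 * n) → ℝ × ℝ} (hp : GenPos p)
    (hinj : Function.Injective p) (c : Fin (3 * n) → Fin 3)
    (hc : ∀ i, (univ.filter (fun x => c x = i)).card = n) :
    ∃ (m : ℕ) (v : ℕ → Fin (3 * n)), 4 * n + 2 ≤ 3 * m ∧ SimplePath p m v ∧
      ∀ i, i + 1 < m → c (v i) ≠ c (v (i + 1)) := by
  obtain ⟨e, he⟩ : ∃ e : ℕ, e = if n % 3 = 0 then 1 else 0 := ⟨_, rfl⟩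
  obtain ⟨L, hL, hcut⟩ := one_cut (by omega) hp hinj c (2 * n + e) (by split_ifs at he <;> omega)
  -- the counts
  have h1 : ∑ i : Fin 3, (L.filter (fun x => c x = i)).card = 2 * n + e := by
    rw [← hL]
    exact (card_eq_sum_card_fiberwise (fun x _ => mem_univ (c x))).symm
  have h2 : ∀ i : Fin 3, (L.filter (fun x => c x = i)).card ≤ n := by
    intro i
    exact (card_le_card (filter_subset_filter _ (subset_univ L))).trans (hc i).le
  have h3 : ∀ i : Fin 3, ((univ \ L).filter (fun x => c x ≠ i)).card + e =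
      (L.filter (fun x => c x = i)).card := by
    intro i
    have e1 : ((univ \ L).filter (fun x => c x = i)).card +
        ((univ \ L).filter (fun x => ¬ c x = i)).card = (univ \ L).card :=
      card_filter_add_card_filter_not _
    have e2 : (univ \ L).card = 3 * n - (2 * n + e) := by
      rw [card_sdiff_of_subset (subset_univ _), card_univ, Fintype.card_fin, hL]
    have e3 : (L.filter (fun x => c x = i)).card + ((univ \ L).filter (fun x => c x = i)).card =
        n := by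
      refine Eq.trans ?_ (hc i)
      rw [← card_union_of_disjoint]
      · congr 1
        ext x
        simp only [mem_union, mem_filter, mem_sdiff, mem_univ, true_and]
        tauto
      · rw [disjoint_left]
        intro x hx hx'
        exact (mem_sdiff.1 (mem_filter.1 hx').1).2 (mem_filter.1 hx).1
    have e4 : e ≤ 1 := by split_ifs at he <;> omega
    have e5 : ((univ \ L).filter (fun x => c x ≠ i)).card =
        ((univ \ L).filter (fun x => ¬ c x = i)).card := rfl
    rw [e5]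
    omega
  -- the most frequent colour
  have h4 : ∃ i : Fin 3, 2 * n + e ≤ 3 * (L.filter (fun x => c x = i)).card := by
    by_contra hcon
    push Not at hcon
    rw [Fin.sum_univ_three] at h1
    have := hcon 0
    have := hcon 1
    have := hcon 2
    omega
  obtain ⟨i, hi⟩ := h4
  have h5 := h3 i
  have h6 : e = 1 ∧ n % 3 = 0 ∨ e = 0 ∧ n % 3 ≠ 0 := by
    split_ifs at he with h
    · exact Or.inl ⟨he, h⟩
    · exact Or.inr ⟨he, h⟩
  obtain ⟨m, v, hm, hv⟩ := hcut i (by omega) (by omega)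
  exact ⟨m, v, by omega, hv⟩

end Pool.Agent.H24.AP
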