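import Pool.Agent.H24.AP.Geo

/-!
# Alternating paths: cyclic orders in which crossing segments interlace

`zig`: such a set of `N` points has a simple alternating path with `m` vertices, `N m >= N + #{(x,y) : c x ≠ c y}`.
-/

set_option autoImplicit false

namespace Pool.Agent.H24.AP

open Finset

/-- crossing segments interlace -/
def Interlacing {N : ℕ} (p : Fin N → ℝ × ℝ) : Prop :=
  ∀ i j k l : Fin N, i < j → j < k → k < l →
    Disjoint (segment ℝ (p i) (p j)) (segment ℝ (p k) (p l)) ∧
      Disjoint (segment ℝ (p i) (p l)) (segment ℝ (p j) (p k))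

/-- the residue of an integer as an index -/
def idx (N : ℕ) (hN : 0 < N) (x : ℤ) : Fin N :=
  ⟨(x % N).toNat, by
    have h1 := Int.emod_nonneg x (b := (N : ℤ)) (by omega)
    have h2 := Int.emod_lt_of_pos x (b := (N : ℤ)) (by omega)
    omega⟩

theorem idx_val (N : ℕ) (hN : 0 < N) (x : ℤ) : ((idx N hN x : ℕ) : ℤ) = x % N := by
  unfold idx
  exact Int.toNat_of_nonneg (Int.emod_nonneg x (by omega))

theorem idx_inj (N : ℕ) (hN : 0 < N) (x y : ℤ) (hxy : |x - y| < N)
    (h : idx N hN x = idx N hN y) : x = y := by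
  have h1 : x % N = y % N := by
    rw [← idx_val N hN x, ← idx_val N hN y, h]
  have h2 : (N : ℤ) ∣ x - y := Int.ModEq.dvd (Int.ModEq.symm h1)
  have := Int.eq_zero_of_abs_lt_dvd h2 hxy
  omega

theorem seg_cyc {N : ℕ} (hN : 0 < N) {p : Fin N → ℝ × ℝ} (hI : Interlacing p) (a b c d : ℤ)
    (hab : a < b) (hbc : b < c) (hcd : c < d) (hda : d < a + N) :
    Disjoint (segment ℝ (p (idx N hN a)) (p (idx N hN b)))
        (segment ℝ (p (idx N hN c)) (p (idx N hN d))) ∧
      Disjoint (segment ℝ (p (idx N hN a)) (p (idx N hN d)))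
        (segment ℝ (p (idx N hN b)) (p (idx N hN c))) := by
  have hNz : (0 : ℤ) < N := by exact_mod_cast hN
  obtain ⟨q, hq⟩ : ∃ q : ℤ, q = a / N := ⟨_, rfl⟩
  obtain ⟨a', ha'⟩ : ∃ a' : ℤ, a' = a - q * N := ⟨_, rfl⟩
  have ha0 : a % N = a' := by
    rw [ha', hq, Int.emod_def]; ring
  have ha1 : 0 ≤ a' := by rw [← ha0]; exact Int.emod_nonneg a (by omega)
  have ha2 : a' < N := by rw [← ha0]; exact Int.emod_lt_of_pos a hNz
  -- residues of the others
  have hres : ∀ x : ℤ, a ≤ x → x < a + N →
      (x - q * N < N ∧ x % N = x - q * N) ∨ (N ≤ x - q * N ∧ x % N = x - q * N - N) := by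
    intro x hx1 hx2
    rcases lt_or_ge (x - q * N) N with h1 | h1
    · left
      refine ⟨h1, ?_⟩
      have h2 : x % N = (x - q * N) % N := by
        rw [Int.sub_mul_emod_self_right]
      rw [h2]
      exact Int.emod_eq_of_lt (by omega) h1
    · right
      refine ⟨h1, ?_⟩
      have h2 : x % N = (x - (q + 1) * N) % N := by
        rw [Int.sub_mul_emod_self_right]
      have h3 : x - (q + 1) * N = x - q * N - N := by ring
      rw [h2, h3]
      exact Int.emod_eq_of_lt (by omega) (by omega)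
  have hva := idx_val N hN a
  have hvb := idx_val N hN b
  have hvc := idx_val N hN c
  have hvd := idx_val N hN d
  have hltf : ∀ x y : Fin N, ((x : ℕ) : ℤ) < ((y : ℕ) : ℤ) → x < y := by
    intro x y h
    rw [Fin.lt_def]
    exact_mod_cast h
  rw [ha0] at hva
  rcases hres b (by omega) (by omega) with ⟨b1, b2⟩ | ⟨b1, b2⟩
  · rcases hres c (by omega) (by omega) with ⟨c1, c2⟩ | ⟨c1, c2⟩
    · rcases hres d (by omega) (by omega) with ⟨d1, d2⟩ | ⟨d1, d2⟩
      · exact hI _ _ _ _ (hltf _ _ (by omega)) (hltf _ _ (by omega)) (hltf _ _ (by omega))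
      · have h := hI (idx N hN d) (idx N hN a) (idx N hN b) (idx N hN c)
          (hltf _ _ (by omega)) (hltf _ _ (by omega)) (hltf _ _ (by omega))
        refine ⟨?_, ?_⟩
        · rw [segment_symm ℝ (p (idx N hN c))]
          exact h.2.symm
        · rw [segment_symm ℝ (p (idx N hN a))]
          exact h.1
    · rcases hres d (by omega) (by omega) with ⟨d1, d2⟩ | ⟨d1, d2⟩
      · omega
      · have h := hI (idx N hN c) (idx N hN d) (idx N hN a) (idx N hN b)
          (hltf _ _ (by omega)) (hltf _ _ (by omega)) (hltf _ _ (by omega))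
        refine ⟨h.1.symm, ?_⟩
        rw [segment_symm ℝ (p (idx N hN a)), segment_symm ℝ (p (idx N hN b))]
        exact h.2.symm
  · rcases hres c (by omega) (by omega) with ⟨c1, c2⟩ | ⟨c1, c2⟩
    · omega
    · rcases hres d (by omega) (by omega) with ⟨d1, d2⟩ | ⟨d1, d2⟩
      · omega
      · have h := hI (idx N hN b) (idx N hN c) (idx N hN d) (idx N hN a)
          (hltf _ _ (by omega)) (hltf _ _ (by omega)) (hltf _ _ (by omega))
        refine ⟨?_, ?_⟩
        · rw [segment_symm ℝ (p (idx N hN a))]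
          exact h.2
        · rw [segment_symm ℝ (p (idx N hN a))]
          exact h.1.symm

/-- pairs inside and outside of an interval of a window -/
theorem seg_win {N : ℕ} (hN : 0 < N) {p : Fin N → ℝ × ℝ} (hI : Interlacing p)
    (W lo hi x y z w : ℤ) (hx : lo ≤ x ∧ x ≤ hi) (hy : lo ≤ y ∧ y ≤ hi)
    (hz : z < lo ∨ hi < z) (hw : w < lo ∨ hi < w)
    (hxW : W ≤ x ∧ x < W + N) (hyW : W ≤ y ∧ y < W + N) (hzW : W ≤ z ∧ z < W + N)
    (hwW : W ≤ w ∧ w < W + N) (hxy : x ≠ y) (hzw : z ≠ w) :
    Disjoint (segment ℝ (p (idx N hN x)) (p (idx N hN y)))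
        (segment ℝ (p (idx N hN z)) (p (idx N hN w))) := by
  -- sorted versions
  have key : ∀ x y z w : ℤ, (lo ≤ x ∧ x ≤ hi) → (lo ≤ y ∧ y ≤ hi) → (z < lo ∨ hi < z) →
      (w < lo ∨ hi < w) → (W ≤ x ∧ x < W + N) → (W ≤ y ∧ y < W + N) → (W ≤ z ∧ z < W + N) →
      (W ≤ w ∧ w < W + N) → x < y → z < w →
      Disjoint (segment ℝ (p (idx N hN x)) (p (idx N hN y)))
        (segment ℝ (p (idx N hN z)) (p (idx N hN w))) := by
    intro x y z w hx hy hz hw hxW hyW hzW hwW hxy hzw
    rcases hz with hz | hz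
    · rcases hw with hw | hw
      · exact (seg_cyc hN hI z w x y hzw (by omega) hxy (by omega)).1.symm
      · exact (seg_cyc hN hI z x y w (by omega) hxy (by omega) (by omega)).2.symm
    · have hw' : hi < w := by omega
      exact (seg_cyc hN hI x y z w hxy (by omega) hzw (by omega)).1
  rcases lt_or_gt_of_ne hxy with h1 | h1 <;> rcases lt_or_gt_of_ne hzw with h2 | h2
  · exact key x y z w hx hy hz hw hxW hyW hzW hwW h1 h2
  · rw [segment_symm ℝ (p (idx N hN z))]
    exact key x y w z hx hy hw hz hxW hyW hwW hzW h1 h2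
  · rw [segment_symm ℝ (p (idx N hN x))]
    exact key y x z w hy hx hz hw hyW hxW hzW hwW h1 h2
  · rw [segment_symm ℝ (p (idx N hN x)), segment_symm ℝ (p (idx N hN z))]
    exact key y x w z hy hx hw hz hyW hxW hwW hzW h1 h2

/-- the zigzag -/
def al (t : ℕ) : ℤ := if t % 2 = 1 then ((t : ℤ) + 1) / 2 else -((t : ℤ) / 2)

theorem al_in (s t : ℕ) (h : s ≤ t) : -((t : ℤ) / 2) ≤ al s ∧ al s ≤ ((t : ℤ) + 1) / 2 := by
  unfold al
  split_ifs <;> omega

theorem al_out (s t : ℕ) (h : t < s) : al s < -((t : ℤ) / 2) ∨ ((t : ℤ) + 1) / 2 < al s := by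
  unfold al
  split_ifs <;> omega

theorem al_inj (s t : ℕ) (h : al s = al t) : s = t := by
  unfold al at h
  split_ifs at h <;> omega

/-- runs -/
theorem runs (κ : ℕ → Fin 3) (k : ℕ) : ∃ (m : ℕ) (τ : ℕ → ℕ),
    m = 1 + ((range k).filter (fun t => κ t ≠ κ (t + 1))).card ∧ (∀ i < m, τ i ≤ k) ∧
    (∀ i, i + 1 < m → τ i < τ (i + 1)) ∧ (∀ i, i + 1 < m → κ (τ i) ≠ κ (τ (i + 1))) ∧
    κ (τ (m - 1)) = κ k := by
  induction k with
  | zero => exact ⟨1, fun _ => 0, by simp, by simp, by simp, by simp, by simp⟩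
  | succ k ih =>
    obtain ⟨m, τ, h1, h2, h3, h4, h5⟩ := ih
    rw [range_add_one, filter_insert]
    by_cases hk : κ k = κ (k + 1)
    · rw [if_neg (by simpa using hk)]
      refine ⟨m, τ, h1, fun i hi => (h2 i hi).trans (Nat.le_succ k), h3, h4, ?_⟩
      rw [h5, hk]
    · rw [if_pos (by simpa using hk), card_insert_of_notMem (by simp)]
      have hm : 1 ≤ m := by omega
      refine ⟨m + 1, fun i => if i < m then τ i else k + 1, by omega, ?_, ?_, ?_, ?_⟩
      · intro i hi
        dsimp only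
        split_ifs with h
        · exact (h2 i h).trans (Nat.le_succ k)
        · exact le_rfl
      · intro i hi
        dsimp only
        rw [if_pos (by omega : i < m)]
        split_ifs with h
        · exact h3 i h
        · have := h2 i (by omega)
          omega
      · intro i hi
        dsimp only
        rw [if_pos (by omega : i < m)]
        split_ifs with h
        · exact h4 i h
        · have h6 : i = m - 1 := by omega
          rw [h6, h5]
          exact hk
      · dsimp only
        rw [if_neg (by omega : ¬ m + 1 - 1 < m)]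

/-- the average over the gaps -/
theorem average {N : ℕ} (hN : 0 < N) (c : Fin N → Fin 3) :
    ∑ g ∈ range N, ((range (N - 1)).filter (fun t =>
      c (idx N hN (g + al t)) ≠ c (idx N hN (g + al (t + 1))))).card =
    (univ.filter (fun xy : Fin N × Fin N => c xy.1 ≠ c xy.2)).card := by
  have hNz : (0 : ℤ) < N := by exact_mod_cast hN
  -- shifting
  have hshift : ∀ (F : Fin N → ℕ) (s : ℤ), ∑ g ∈ range N, F (idx N hN (g + s)) =
      ∑ x : Fin N, F x := by
    intro F s
    refine sum_bij' (fun g _ => idx N hN (g + s)) (fun x _ => ((idx N hN ((x : ℕ) - s)) : ℕ))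
      ?_ ?_ ?_ ?_ ?_
    · intro g _
      exact mem_univ _
    · intro x _
      rw [mem_range]
      exact (idx N hN _).2
    · intro g hg
      rw [mem_range] at hg
      have h1 := idx_val N hN (((idx N hN (g + s) : ℕ) : ℤ) - s)
      have h2 := idx_val N hN ((g : ℤ) + s)
      have h3 : (((g : ℤ) + s) % N - s) % N = g := by
        rw [Int.emod_sub_emod, add_sub_cancel_right]
        exact Int.emod_eq_of_lt (by omega) (by omega)
      rw [← h2] at h3
      exact_mod_cast h1.trans h3
    · intro x _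
      apply Fin.ext
      have h1 := idx_val N hN (((idx N hN ((x : ℕ) - s) : ℕ) : ℤ) + s)
      have h2 := idx_val N hN (((x : ℕ) : ℤ) - s)
      have h3 : ((((x : ℕ) : ℤ) - s) % N + s) % N = (x : ℕ) := by
        rw [Int.emod_add_emod, sub_add_cancel]
        have := x.2
        exact Int.emod_eq_of_lt (by omega) (by omega)
      rw [← h2] at h3
      exact_mod_cast h1.trans h3
    · intro g _
      rfl
  obtain ⟨f, hf⟩ : ∃ f : ℤ → ℕ, f = fun d => ∑ x : Fin N,
      (if c x ≠ c (idx N hN (((x : ℕ) : ℤ) + d)) then 1 else 0) := ⟨_, rfl⟩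
  have hidx : ∀ (g s : ℤ), idx N hN (((idx N hN g : ℕ) : ℤ) + s) = idx N hN (g + s) := by
    intro g s
    apply Fin.ext
    have h1 := idx_val N hN (((idx N hN g : ℕ) : ℤ) + s)
    have h2 := idx_val N hN (g + s)
    have h3 : (((idx N hN g : ℕ) : ℤ) + s) % N = (g + s) % N := by
      rw [idx_val N hN g, Int.emod_add_emod]
    exact_mod_cast (h1.trans h3).trans h2.symm
  have hpair : ∀ s s' : ℤ, ∑ g ∈ range N,
      (if c (idx N hN (g + s)) ≠ c (idx N hN (g + s')) then 1 else 0) = f (s' - s) := by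
    intro s s'
    rw [hf]
    dsimp only
    rw [← hshift (fun x => if c x ≠ c (idx N hN (((x : ℕ) : ℤ) + (s' - s))) then 1 else 0) s]
    refine sum_congr rfl fun g _ => ?_
    rw [hidx]
    congr 4
    ring_nf
  have hsymm : ∀ d : ℤ, f (-d) = f d := by
    intro d
    have h1 := hpair 0 (-d)
    have h2 := hpair (-d) 0
    rw [sub_zero] at h1
    rw [zero_sub, neg_neg] at h2
    rw [← h1, ← h2]
    refine sum_congr rfl fun g _ => ?_
    simp only [ne_comm]
  have h1 : ∑ g ∈ range N, ((range (N - 1)).filter (fun t =>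
      c (idx N hN (g + al t)) ≠ c (idx N hN (g + al (t + 1))))).card =
      ∑ t ∈ range (N - 1), f ((t : ℤ) + 1) := by
    have h2 : ∀ g ∈ range N, ((range (N - 1)).filter (fun t =>
        c (idx N hN (g + al t)) ≠ c (idx N hN (g + al (t + 1))))).card =
        ∑ t ∈ range (N - 1), (if c (idx N hN (g + al t)) ≠ c (idx N hN (g + al (t + 1)))
          then 1 else 0) := by
      intro g _
      rw [card_filter]
    rw [sum_congr rfl h2, sum_comm]
    refine sum_congr rfl fun t _ => ?_
    rw [hpair]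
    rcases Nat.mod_two_eq_zero_or_one t with h3 | h3
    · have h4 : al (t + 1) - al t = (t : ℤ) + 1 := by
        unfold al
        rw [if_pos (by omega : (t + 1) % 2 = 1), if_neg (by omega : ¬ t % 2 = 1)]
        push_cast
        omega
      rw [h4]
    · have h4 : al (t + 1) - al t = -((t : ℤ) + 1) := by
        unfold al
        rw [if_neg (by omega : ¬ (t + 1) % 2 = 1), if_pos (by omega : t % 2 = 1)]
        push_cast
        omega
      rw [h4, hsymm]
  rw [h1]
  have hf0 : f 0 = 0 := by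
    rw [hf]
    dsimp only
    refine sum_eq_zero fun x _ => ?_
    rw [if_neg]
    intro h
    apply h
    congr 1
    apply Fin.ext
    have h2 := idx_val N hN (((x : ℕ) : ℤ) + 0)
    have := x.2
    rw [add_zero, Int.emod_eq_of_lt (by omega) (by omega)] at h2
    rw [add_zero]
    exact_mod_cast h2.symm
  have h2 : ∑ t ∈ range (N - 1), f ((t : ℤ) + 1) = ∑ t ∈ range N, f ((t : ℤ)) := by
    obtain ⟨M, rfl⟩ : ∃ M, N = M + 1 := ⟨N - 1, by omega⟩
    rw [sum_range_succ' (fun t : ℕ => f (t : ℤ)), Nat.add_sub_cancel]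
    simp only [Nat.cast_zero, hf0, add_zero]
    refine sum_congr rfl fun t _ => ?_
    push_cast
    rfl
  rw [h2, hf]
  dsimp only
  rw [sum_comm, card_filter, ← univ_product_univ, sum_product]
  refine sum_congr rfl fun x _ => ?_
  have h3 := hshift (fun y => if c x ≠ c y then 1 else 0) (x : ℕ)
  rw [← h3]
  refine sum_congr rfl fun t _ => ?_
  rw [add_comm ((x : ℕ) : ℤ) (t : ℤ)]

theorem near_seg (A B D : ℝ × ℝ) (h : ori B D A ≠ 0) :
    segment ℝ A B ∩ segment ℝ B D = {B} := by
  ext z
  constructor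
  · rintro ⟨hz1, hz2⟩
    rw [segment_eq_image] at hz1 hz2
    obtain ⟨t, ht, rfl⟩ := hz1
    obtain ⟨u, hu, hz⟩ := hz2
    dsimp only at hz ⊢
    have h1 : ori B D ((1 - t) • A + t • B) = 0 := by
      rw [← hz, ori_comb, ori_self, ori_self']
      ring
    rw [ori_comb, ori_self', mul_zero, add_zero] at h1
    have h2 : 1 - t = 0 := (mul_eq_zero.1 h1).resolve_right h
    have h3 : t = 1 := by linarith
    rw [h3]
    simp
  · intro hz
    rw [Set.mem_singleton_iff] at hz
    rw [hz]
    exact ⟨right_mem_segment ℝ _ _, left_mem_segment ℝ _ _⟩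

theorem zig {N : ℕ} (hN : 0 < N) {p : Fin N → ℝ × ℝ} (hp : GenPos p) (hI : Interlacing p)
    (c : Fin N → Fin 3) : ∃ (m : ℕ) (v : ℕ → Fin N),
      N + (univ.filter (fun xy : Fin N × Fin N => c xy.1 ≠ c xy.2)).card ≤ N * m ∧
      SimplePath p m v ∧ ∀ i, i + 1 < m → c (v i) ≠ c (v (i + 1)) := by
  obtain ⟨b, hb⟩ : ∃ b : ℕ,
      b = (univ.filter (fun xy : Fin N × Fin N => c xy.1 ≠ c xy.2)).card := ⟨_, rfl⟩
  rw [← hb]
  have hav := average hN c
  rw [← hb] at hav
  have hex : ∃ g ∈ range N, b ≤ N * ((range (N - 1)).filter (fun t =>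
      c (idx N hN (g + al t)) ≠ c (idx N hN (g + al (t + 1))))).card := by
    by_contra hcon
    push Not at hcon
    have h1 : ∑ g ∈ range N, N * ((range (N - 1)).filter (fun t =>
      c (idx N hN (g + al t)) ≠ c (idx N hN (g + al (t + 1))))).card < ∑ g ∈ range N, b :=
      sum_lt_sum_of_nonempty ⟨0, mem_range.2 hN⟩ hcon
    rw [← mul_sum, hav, sum_const, card_range, smul_eq_mul] at h1
    exact lt_irrefl _ h1
  obtain ⟨g, _, hg⟩ := hex
  obtain ⟨m, τ, h1, h2, h3, h4, _⟩ := runs (fun t => c (idx N hN (g + al t))) (N - 1)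
  have hmono : ∀ j i, i < j → j < m → τ i < τ j := by
    intro j
    induction j with
    | zero => intro i hi _; omega
    | succ j ih =>
      intro i hi hj
      rcases Nat.lt_or_ge i j with h5 | h5
      · exact (ih i h5 (by omega)).trans (h3 j hj)
      · have h6 : i = j := by omega
        rw [h6]
        exact h3 j hj
  have hτ : ∀ i < m, τ i ≤ N - 1 := h2
  have hwin : ∀ t, t ≤ N - 1 →
      (g : ℤ) - ((N - 1 : ℕ) : ℤ) / 2 ≤ g + al t ∧
        (g : ℤ) + al t < (g : ℤ) - ((N - 1 : ℕ) : ℤ) / 2 + N := by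
    intro t ht
    have := al_in t (N - 1) ht
    omega
  refine ⟨m, fun i => idx N hN (g + al (τ i)), ?_, ⟨?_, ?_, ?_⟩, h4⟩
  · rw [h1, mul_add, mul_one]
    exact Nat.add_le_add_left hg N
  · intro i hi j hj hij
    have h5 := hwin (τ i) (hτ i hi)
    have h6 := hwin (τ j) (hτ j hj)
    have h7 := idx_inj N hN _ _ (by rw [abs_lt]; omega) hij
    have h8 : τ i = τ j := al_inj _ _ (by omega)
    by_contra hne
    rcases lt_or_gt_of_ne hne with h9 | h9
    · have := hmono j i h9 hj
      omega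
    · have := hmono i j h9 hi
      omega
  · intro i j hij hj
    have e1 := hmono (i + 1) i (by omega) (by omega)
    have e2 := hmono j (i + 1) hij (by omega)
    have e3 := hmono (j + 1) j (by omega) hj
    have w1 := hwin (τ i) (hτ i (by omega))
    have w2 := hwin (τ (i + 1)) (hτ (i + 1) (by omega))
    have w3 := hwin (τ j) (hτ j (by omega))
    have w4 := hwin (τ (j + 1)) (hτ (j + 1) (by omega))
    have a1 := al_in (τ i) (τ (i + 1)) (by omega)
    have a2 := al_in (τ (i + 1)) (τ (i + 1)) le_rfl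
    have a3 := al_out (τ j) (τ (i + 1)) (by omega)
    have a4 := al_out (τ (j + 1)) (τ (i + 1)) (by omega)
    refine seg_win hN hI ((g : ℤ) - ((N - 1 : ℕ) : ℤ) / 2)
      ((g : ℤ) + -((τ (i + 1) : ℤ) / 2)) ((g : ℤ) + ((τ (i + 1) : ℤ) + 1) / 2) _ _ _ _
      (by omega) (by omega) (by omega) (by omega) w1 w2 w3 w4 ?_ ?_
    · intro h5
      have := al_inj (τ i) (τ (i + 1)) (by omega)
      omega
    · intro h5
      have := al_inj (τ j) (τ (j + 1)) (by omega)
      omega
  · intro i hi
    have e1 := hmono (i + 1) i (by omega) (by omega)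
    have e2 := hmono (i + 2) (i + 1) (by omega) hi
    have w1 := hwin (τ i) (hτ i (by omega))
    have w2 := hwin (τ (i + 1)) (hτ (i + 1) (by omega))
    have w3 := hwin (τ (i + 2)) (hτ (i + 2) (by omega))
    have hne : ∀ s t, s ≤ N - 1 → t ≤ N - 1 → s < t →
        idx N hN (g + al s) ≠ idx N hN (g + al t) := by
      intro s t hs ht hst h5
      have v1 := hwin s hs
      have v2 := hwin t ht
      have h6 := idx_inj N hN _ _ (by rw [abs_lt]; omega) h5
      have := al_inj s t (by omega)
      omega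
    refine near_seg _ _ _ ?_
    have n1 := hne _ _ (hτ i (by omega)) (hτ (i + 1) (by omega)) e1
    have n2 := hne _ _ (hτ (i + 1) (by omega)) (hτ (i + 2) (by omega)) e2
    have n3 := hne _ _ (hτ i (by omega)) (hτ (i + 2) (by omega)) (e1.trans e2)
    exact ori_ne hp n2 n3.symm n1.symm

end Pool.Agent.H24.AP
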